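import Mathlib

set_option autoImplicit false

namespace Pool.Agent.Results.MP_ee26ba_co.DimFive

open Finset

/-- Separation indicator: `1` if the two bits differ, `0` otherwise. -/
def sp (a b : Bool) : ℤ := if a = b then 0 else 1

/-- The certificate matrix. Row `i` lists the weights of the pairs `(i, i-1), (i, i-2), ..., (i, 0)`
of positions in a linear order of eleven points. -/
def rows : List (List ℤ) :=
  [[],
   [-94],
   [-32, -39],
   [-12, -16, -25],
   [-6, -6, -6, -15],
   [-5, -5, 0, 0, -5],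
   [-5, -5, -3, 4, 6, 7],
   [-6, -5, -3, 3, 6, 11, 17],
   [-12, -6, 0, 4, 6, 6, 11, 33],
   [-32, -16, -6, 0, 6, 11, 11, 17, 85],
   [-94, -39, -25, -15, -5, 7, 17, 33, 85, 156]]

/-- The weight of the pair of positions `j < i`. -/
def zz (i j : ℕ) : ℤ := (rows.getD i []).getD (i - 1 - j) 0

/-- The size multipliers. -/
def yy (c : ℕ) : ℤ := [0, 30, 72, 100, 119, 128, 128, 119, 100, 72, 30, 0].getD c 0

/-- Weight of the pairs formed by a new bit and the previous bits. -/
def rv (c : Bool) : List Bool → List ℤ → ℤ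
  | b :: bs, z :: zs => z * sp c b + rv c bs zs
  | _, _ => 0

/-- Checks the cut inequality for all bit vectors, one bit at a time. -/
def go : List (List ℤ) → List Bool → ℤ → ℕ → Bool
  | [], _, acc, cnt => decide (0 ≤ acc + yy cnt)
  | r :: rs, pre, acc, cnt =>
      go rs (true :: pre) (acc + rv true pre r) (cnt + 1) &&
        go rs (false :: pre) (acc + rv false pre r) cnt

/-- The value of the cut given by `b`, computed row by row. -/
def cv (b : ℕ → Bool) : ℕ → List Bool → List (List ℤ) → ℤ
  | _, _, [] => 0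
  | i, pre, r :: rs => rv (b i) pre r + cv b (i + 1) (b i :: pre) rs

/-- The number of `true` bits, computed row by row. -/
def ct (b : ℕ → Bool) : ℕ → List (List ℤ) → ℕ
  | _, [] => 0
  | i, _ :: rs => (if b i then 1 else 0) + ct b (i + 1) rs

theorem go_spec (b : ℕ → Bool) (rs : List (List ℤ)) :
    ∀ (i : ℕ) (pre : List Bool) (acc : ℤ) (cnt : ℕ), go rs pre acc cnt = true →
      0 ≤ acc + cv b i pre rs + yy (cnt + ct b i rs) := by
  induction rs with
  | nil =>
    intro i pre acc cnt h
    simpa [go, cv, ct] using h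
  | cons r rs ih =>
    intro i pre acc cnt h
    rw [go, Bool.and_eq_true] at h
    rw [cv, ct]
    cases hb : b i with
    | true =>
      have := ih (i + 1) (true :: pre) _ _ h.1
      simp only [if_true]
      rw [← add_assoc, ← add_assoc]
      exact this
    | false =>
      have := ih (i + 1) (false :: pre) _ _ h.2
      simp only [Bool.false_eq_true, if_false, zero_add]
      rw [← add_assoc]
      exact this

theorem chk : go rows [] 0 0 = true := by decide +kernel

/-- The cut inequality: for every cut, the weight of the cut plus the size multiplier is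
nonnegative. -/
theorem cut_ineq (b : ℕ → Bool) :
    0 ≤ ∑ i ∈ range 11, ∑ j ∈ range i, zz i j * sp (b i) (b j)
      + yy (∑ i ∈ range 11, if b i then 1 else 0) := by
  have h := go_spec b rows 0 [] 0 0 chk
  have e1 : cv b 0 [] rows = ∑ i ∈ range 11, ∑ j ∈ range i, zz i j * sp (b i) (b j) := by
    simp [cv, rv, rows, zz, sum_range_succ]
    ring
  have e2 : ct b 0 rows = ∑ i ∈ range 11, if b i then 1 else 0 := by
    simp only [ct, rows, sum_range_succ, sum_range_zero, zero_add]
    ring
  rw [e1, e2] at h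
  simpa using h

/-- The cut inequality for initial segments of the order. -/
theorem prefix_ineq (l : ℕ) (hl : l < 10) :
    4 * yy (l + 1) ≤ ∑ i ∈ range 11, ∑ j ∈ range i, zz i j * sp (decide (i ≤ l)) (decide (j ≤ l)) := by
  revert l
  decide +kernel

theorem total : ∑ i ∈ range 11, ∑ j ∈ range i, zz i j = -1 := by decide +kernel

/-- The distance in a line is the sum of the gaps that separate the two points. -/
theorem line_dist (g : ℕ → ℝ) (hg : ∀ i j, i ≤ j → j < 11 → g i ≤ g j) (a b : ℕ) (ha : a < 11)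
    (hb : b < 11) :
    |g a - g b| = ∑ l ∈ range 10, (g (l + 1) - g l) * (sp (decide (a ≤ l)) (decide (b ≤ l)) : ℤ) := by
  have key : ∀ a b : ℕ, a ≤ b → b < 11 →
      g b - g a = ∑ l ∈ range 10, (g (l + 1) - g l) *
        (sp (decide (a ≤ l)) (decide (b ≤ l)) : ℤ) := by
    intro a b hab hb
    have h1 : g b - g a = ∑ l ∈ Ico a b, (g (l + 1) - g l) := by
      rw [Finset.sum_Ico_eq_sub _ hab, Finset.sum_range_sub, Finset.sum_range_sub]
      ring
    have h2 : Ico a b = (range 10).filter (fun l => a ≤ l ∧ l < b) := by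
      ext l
      simp only [mem_Ico, mem_filter, mem_range]
      omega
    rw [h1, h2, Finset.sum_filter]
    refine Finset.sum_congr rfl fun l _ => ?_
    by_cases h : a ≤ l ∧ l < b
    · have h3 : ¬ b ≤ l := by omega
      simp [h, h3, sp]
    · rw [if_neg h]
      have h3 : decide (a ≤ l) = decide (b ≤ l) := by
        rw [decide_eq_decide]
        omega
      simp [h3, sp]
  rcases le_total a b with h | h
  · rw [abs_sub_comm, abs_of_nonneg (by linarith [hg a b h hb]), key a b h hb]
  · rw [abs_of_nonneg (by linarith [hg b a h ha]), key b a h ha]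
    refine Finset.sum_congr rfl fun l _ => ?_
    congr 2
    unfold sp
    simp only [eq_comm]

theorem main_bound (X : Fin 11 → Fin 5 → ℝ) (t : ℝ) (ht : 0 < t)
    (hX : ∀ i j, i ≠ j → ∑ k, |X i k - X j k| = t) : False := by
  classical
  -- the sorting permutations
  let σ : Fin 5 → Equiv.Perm (Fin 11) := fun k => Tuple.sort (fun i => X i k)
  have hmono : ∀ k, Monotone ((fun i => X i k) ∘ σ k) := fun k => Tuple.monotone_sort _
  let o : ℕ → Fin 11 := fun n => Fin.ofNat 11 n
  have ho : ∀ n, n < 11 → ((o n : Fin 11) : ℕ) = n := fun n hn => Nat.mod_eq_of_lt hn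
  let g : Fin 5 → ℕ → ℝ := fun k n => X (σ k (o n)) k
  have hg : ∀ k i j, i ≤ j → j < 11 → g k i ≤ g k j := by
    intro k i j hij hj
    apply hmono k
    rw [Fin.le_def, ho i (by omega), ho j hj]
    exact hij
  have hgap : ∀ k l, l < 10 → 0 ≤ g k (l + 1) - g k l := by
    intro k l hl
    have := hg k l (l + 1) (by omega) (by omega)
    linarith
  let G : Fin 5 → ℝ := fun k => ∑ l ∈ range 10, (g k (l + 1) - g k l) * (yy (l + 1) : ℤ)
  -- position of the i-th point of the order k in the order k'
  let τ : Fin 5 → Fin 5 → ℕ → ℕ := fun k k' i => (((σ k').symm (σ k (o i)) : Fin 11) : ℕ)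
  have hτlt : ∀ k k' i, τ k k' i < 11 := fun k k' i => ((σ k').symm (σ k (o i))).2
  have hτg : ∀ k k' i, X (σ k (o i)) k' = g k' (τ k k' i) := by
    intro k k' i
    have h1 : o (τ k k' i) = (σ k').symm (σ k (o i)) := by
      apply Fin.ext
      rw [ho _ (hτlt k k' i)]
    simp only [g]
    rw [h1, Equiv.apply_symm_apply]
  -- the functional of one order evaluated on one coordinate
  let W : Fin 5 → Fin 5 → ℝ := fun k k' => ∑ i ∈ range 11, ∑ j ∈ range i,
    (zz i j : ℝ) * |X (σ k (o i)) k' - X (σ k (o j)) k'|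
  have hW : ∀ k k', W k k' = ∑ l ∈ range 10, (g k' (l + 1) - g k' l) *
      ((∑ i ∈ range 11, ∑ j ∈ range i, zz i j *
        sp (decide (τ k k' i ≤ l)) (decide (τ k k' j ≤ l)) : ℤ) : ℝ) := by
    intro k k'
    simp only [W]
    have h1 : ∀ i ∈ range 11, ∀ j ∈ range i,
        (zz i j : ℝ) * |X (σ k (o i)) k' - X (σ k (o j)) k'| =
          ∑ l ∈ range 10, (g k' (l + 1) - g k' l) *
            ((zz i j * sp (decide (τ k k' i ≤ l)) (decide (τ k k' j ≤ l)) : ℤ) : ℝ) := by
      intro i hi j hj
      rw [hτg, hτg, line_dist (g k') (hg k') _ _ (hτlt k k' i) (hτlt k k' j), Finset.mul_sum]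
      refine Finset.sum_congr rfl fun l _ => ?_
      push_cast
      ring
    rw [Finset.sum_congr rfl fun i hi => Finset.sum_congr rfl fun j hj => h1 i hi j hj]
    push_cast
    rw [Finset.sum_congr rfl fun i _ => Finset.sum_comm, Finset.sum_comm]
    refine Finset.sum_congr rfl fun l _ => ?_
    rw [Finset.mul_sum]
    refine Finset.sum_congr rfl fun i _ => ?_
    rw [Finset.mul_sum]
  -- counting
  have hcount : ∀ k k' l, l < 10 →
      (∑ i ∈ range 11, if decide (τ k k' i ≤ l) then 1 else 0) = l + 1 := by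
    intro k k' l hl
    rw [Finset.sum_range]
    have h1 : ∀ i : Fin 11, (if decide (τ k k' i ≤ l) = true then (1 : ℕ) else 0)
        = (fun x : Fin 11 => if (x : ℕ) ≤ l then 1 else 0) (((σ k').symm) (σ k i)) := by
      intro i
      have h2 : o (i : ℕ) = i := Fin.ext (ho _ i.2)
      simp only [τ, h2, decide_eq_true_eq]
    rw [Finset.sum_congr rfl fun i _ => h1 i]
    have h3 := Equiv.sum_comp (σ k) (fun x => (fun x : Fin 11 => if (x : ℕ) ≤ l then 1 else 0)
      (((σ k').symm) x))
    have h4 := Equiv.sum_comp (σ k').symm (fun x : Fin 11 => if (x : ℕ) ≤ l then 1 else 0)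
    rw [h3, h4]
    clear h1 h3 h4
    revert l
    decide
  have hcross : ∀ k k', - G k' ≤ W k k' := by
    intro k k'
    rw [hW]
    simp only [G]
    rw [← Finset.sum_neg_distrib]
    refine Finset.sum_le_sum fun l hl => ?_
    rw [mem_range] at hl
    have h1 := cut_ineq (fun i => decide (τ k k' i ≤ l))
    rw [hcount k k' l hl] at h1
    have h2 : (0 : ℝ) ≤ ((∑ i ∈ range 11, ∑ j ∈ range i, zz i j *
        sp (decide (τ k k' i ≤ l)) (decide (τ k k' j ≤ l)) : ℤ) : ℝ) + (yy (l + 1) : ℤ) := by
      exact_mod_cast h1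
    nlinarith [mul_nonneg (hgap k' l hl) h2]
  have hdiag : ∀ k, 4 * G k ≤ W k k := by
    intro k
    rw [hW]
    simp only [G]
    rw [Finset.mul_sum]
    refine Finset.sum_le_sum fun l hl => ?_
    rw [mem_range] at hl
    have h0 : ∀ i, i < 11 → τ k k i = i := by
      intro i hi
      simp only [τ, Equiv.symm_apply_apply]
      exact ho i hi
    have h1 := prefix_ineq l hl
    have h3 : ∑ i ∈ range 11, ∑ j ∈ range i, zz i j *
        sp (decide (τ k k i ≤ l)) (decide (τ k k j ≤ l)) =
        ∑ i ∈ range 11, ∑ j ∈ range i, zz i j * sp (decide (i ≤ l)) (decide (j ≤ l)) := by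
      refine Finset.sum_congr rfl fun i hi => Finset.sum_congr rfl fun j hj => ?_
      rw [mem_range] at hi hj
      rw [h0 i hi, h0 j (by omega)]
    rw [h3]
    have h2 : (4 : ℝ) * (yy (l + 1) : ℤ) ≤ ((∑ i ∈ range 11, ∑ j ∈ range i, zz i j *
        sp (decide (i ≤ l)) (decide (j ≤ l)) : ℤ) : ℝ) := by
      exact_mod_cast h1
    nlinarith [mul_le_mul_of_nonneg_left h2 (hgap k l hl)]
  -- the total
  have htot : ∀ k, ∑ k', W k k' = - t := by
    intro k
    simp only [W]
    rw [Finset.sum_comm]
    have h1 : ∀ i ∈ range 11, ∑ k', ∑ j ∈ range i,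
        (zz i j : ℝ) * |X (σ k (o i)) k' - X (σ k (o j)) k'| = ∑ j ∈ range i, (zz i j : ℝ) * t := by
      intro i hi
      rw [Finset.sum_comm]
      refine Finset.sum_congr rfl fun j hj => ?_
      rw [mem_range] at hi hj
      rw [← Finset.mul_sum, hX]
      intro h
      have h4 := (σ k).injective h
      have h5 := congrArg (fun x : Fin 11 => (x : ℕ)) h4
      simp only [ho i hi, ho j (by omega)] at h5
      omega
    rw [Finset.sum_congr rfl h1]
    have h2 : (∑ i ∈ range 11, ∑ j ∈ range i, (zz i j : ℝ)) = -1 := by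
      exact_mod_cast total
    have h3 : ∑ i ∈ range 11, ∑ j ∈ range i, (zz i j : ℝ) * t
        = (∑ i ∈ range 11, ∑ j ∈ range i, (zz i j : ℝ)) * t := by
      rw [Finset.sum_mul]
      refine Finset.sum_congr rfl fun i _ => ?_
      rw [Finset.sum_mul]
    rw [h3, h2]
    ring
  have hsum : ∀ k, 5 * G k - ∑ k', G k' ≤ ∑ k', W k k' := by
    intro k
    have h1 : ∑ k', (- G k' + (if k' = k then 5 * G k' else 0)) ≤ ∑ k', W k k' := by
      refine Finset.sum_le_sum fun k' _ => ?_
      by_cases h : k' = k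
      · subst h
        rw [if_pos rfl]
        linarith [hdiag k']
      · rw [if_neg h]
        linarith [hcross k k']
    rw [Finset.sum_add_distrib, Finset.sum_ite_eq' univ k, if_pos (mem_univ k),
      Finset.sum_neg_distrib] at h1
    linarith
  have hfin : ∑ k, (5 * G k - ∑ k', G k') ≤ ∑ k, ∑ k', W k k' := Finset.sum_le_sum fun k _ => hsum k
  rw [Finset.sum_congr rfl fun k _ => htot k, Finset.sum_sub_distrib, ← Finset.mul_sum] at hfin
  simp only [Finset.sum_const, Finset.card_univ, Fintype.card_fin, nsmul_eq_mul] at hfin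
  push_cast at hfin
  linarith

/-- Kusner's conjecture in dimension five: an equilateral set in `ℓ_1^5` has at most ten points. -/
theorem result (Y : Finset (Fin 5 → ℝ)) (t : ℝ) (ht : 0 < t)
    (hY : ∀ x ∈ Y, ∀ y ∈ Y, x ≠ y → ∑ k, |x k - y k| = t) : Y.card ≤ 10 := by
  by_contra hc
  push Not at hc
  obtain ⟨Z, hZ, hcard⟩ := Finset.exists_subset_card_eq (s := Y) (n := 11) (by omega)
  have e : Fin 11 ≃ Z := (Z.equivFinOfCardEq hcard).symm
  refine main_bound (fun i => ((e i : Z) : Fin 5 → ℝ)) t ht ?_
  intro i j hij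
  apply hY _ (hZ (e i).2) _ (hZ (e j).2)
  intro h
  exact hij (e.injective (Subtype.ext h))

end Pool.Agent.Results.MP_ee26ba_co.DimFive
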