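import Mathlib

set_option autoImplicit false

namespace Pool.Agent.Results.MP_ee26ba_co.ExplicitBound

open Finset

noncomputable section

/-- Prefix sums. -/
def ps (z : ℕ → ℝ) (a : ℕ) : ℝ := ∑ i ∈ range a, z i

lemma ps_succ (z : ℕ → ℝ) (a : ℕ) : ps z (a + 1) = ps z a + z a := by
  unfold ps; rw [sum_range_succ]

lemma ps_zero (z : ℕ → ℝ) : ps z 0 = 0 := by simp [ps]

/-- Abel summation. -/
lemma abel (z h : ℕ → ℝ) (N : ℕ) :
    ∑ i ∈ range N, z i * (h N - h i) = ∑ a ∈ range N, (h (a + 1) - h a) * ps z (a + 1) := by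
  induction N with
  | zero => simp
  | succ N ih =>
    rw [sum_range_succ (fun a => (h (a + 1) - h a) * ps z (a + 1)), ← ih, sum_range_succ]
    have e : ∑ i ∈ range N, z i * (h (N + 1) - h i)
        = ∑ i ∈ range N, z i * (h N - h i) + ps z N * (h (N + 1) - h N) := by
      unfold ps
      rw [Finset.sum_mul, ← Finset.sum_add_distrib]
      exact Finset.sum_congr rfl fun i _ => by ring
    rw [e, ps_succ]
    ring

/-- The main identity for a function which is monotone on `range N`. -/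
lemma main_identity (z h : ℕ → ℝ) (N : ℕ) (hm : ∀ i j, i ≤ j → j < N + 1 → h i ≤ h j) :
    ∑ i ∈ range (N + 1), ∑ j ∈ range (N + 1), z i * z j * |h i - h j|
      = 2 * ∑ a ∈ range N, (h (a + 1) - h a) * (ps z (a + 1) * (ps z (N + 1) - ps z (a + 1))) := by
  induction N with
  | zero => simp
  | succ N ih =>
    have hm' : ∀ i j, i ≤ j → j < N + 1 → h i ≤ h j := fun i j h1 h2 => hm i j h1 (by omega)
    rw [sum_range_succ]
    have e1 : ∀ i ∈ range (N + 1), ∑ j ∈ range (N + 1 + 1), z i * z j * |h i - h j|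
        = ∑ j ∈ range (N + 1), z i * z j * |h i - h j| + z (N + 1) * (z i * (h (N + 1) - h i)) := by
      intro i hi
      rw [mem_range] at hi
      rw [sum_range_succ]
      have : |h i - h (N + 1)| = h (N + 1) - h i := by
        rw [abs_sub_comm, abs_of_nonneg]
        linarith [hm i (N + 1) (by omega) (by omega)]
      rw [this]
      ring
    rw [Finset.sum_congr rfl e1, Finset.sum_add_distrib, ih hm', ← Finset.mul_sum]
    have e2 : ∑ j ∈ range (N + 1 + 1), z (N + 1) * z j * |h (N + 1) - h j|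
        = z (N + 1) * ∑ j ∈ range (N + 1), z j * (h (N + 1) - h j) := by
      rw [sum_range_succ, sub_self, abs_zero, mul_zero, add_zero, Finset.mul_sum]
      refine Finset.sum_congr rfl fun j hj => ?_
      rw [mem_range] at hj
      rw [abs_of_nonneg (by linarith [hm j (N + 1) (by omega) (by omega)])]
      ring
    rw [e2, abel, sum_range_succ _ N, sum_range_succ _ N, ps_succ z (N + 1)]
    have e3 : ∑ a ∈ range N, (h (a + 1) - h a) * (ps z (a + 1) *
        (ps z (N + 1) + z (N + 1) - ps z (a + 1)))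
        = ∑ a ∈ range N, (h (a + 1) - h a) * (ps z (a + 1) * (ps z (N + 1) - ps z (a + 1)))
          + z (N + 1) * ∑ a ∈ range N, (h (a + 1) - h a) * ps z (a + 1) := by
      rw [Finset.mul_sum, ← Finset.sum_add_distrib]
      exact Finset.sum_congr rfl fun i _ => by ring
    rw [e3]
    ring

/-- The sorted version of a function on `Fin (N+1)`, as a function on `ℕ`. -/
def srt {N : ℕ} (f : Fin (N + 1) → ℝ) (g : Fin (N + 1) → ℝ) (i : ℕ) : ℝ :=
  if hi : i < N + 1 then g (Tuple.sort f ⟨i, hi⟩) else 0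

lemma srt_mono {N : ℕ} (f : Fin (N + 1) → ℝ) (i j : ℕ) (hij : i ≤ j) (hj : j < N + 1) :
    srt f f i ≤ srt f f j := by
  unfold srt
  rw [dif_pos (by omega), dif_pos hj]
  exact Tuple.monotone_sort f (by rw [Fin.mk_le_mk]; exact hij)

lemma sum_srt {N : ℕ} (f g : Fin (N + 1) → ℝ) :
    ∑ i ∈ range (N + 1), srt f g i = ∑ i, g i := by
  rw [Finset.sum_range]
  have : ∀ i : Fin (N + 1), srt f g (i : ℕ) = g (Tuple.sort f i) := by
    intro i
    unfold srt
    rw [dif_pos i.2]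
  simp only [this]
  exact Equiv.sum_comp (Tuple.sort f) g

lemma sum_sum_srt {N : ℕ} (f ζ : Fin (N + 1) → ℝ) :
    ∑ i ∈ range (N + 1), ∑ j ∈ range (N + 1),
        srt f ζ i * srt f ζ j * |srt f f i - srt f f j|
      = ∑ i, ∑ j, ζ i * ζ j * |f i - f j| := by
  have h : ∀ (g : Fin (N + 1) → ℝ) (i : Fin (N + 1)), srt f g (i : ℕ) = g (Tuple.sort f i) := by
    intro g i
    unfold srt
    rw [dif_pos i.2]
  rw [Finset.sum_range]
  simp only [Finset.sum_range (n := N + 1), h]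
  rw [← Equiv.sum_comp (Tuple.sort f) (fun i => ∑ j, ζ i * ζ j * |f i - f j|)]
  refine Finset.sum_congr rfl fun i _ => ?_
  exact Equiv.sum_comp (Tuple.sort f) (fun j => ζ (Tuple.sort f i) * ζ j * |f (Tuple.sort f i) - f j|)

/-- The absolute value is of negative type. -/
lemma neg_type {N : ℕ} (f ζ : Fin (N + 1) → ℝ) (h0 : ∑ i, ζ i = 0) :
    ∑ i, ∑ j, ζ i * ζ j * |f i - f j| ≤ 0 := by
  rw [← sum_sum_srt, main_identity _ _ _ (srt_mono f)]
  have h1 : ps (srt f ζ) (N + 1) = 0 := by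
    unfold ps
    rw [sum_srt, h0]
  rw [h1]
  have : ∀ a ∈ range N, (srt f f (a + 1) - srt f f a) *
      (ps (srt f ζ) (a + 1) * (0 - ps (srt f ζ) (a + 1))) ≤ 0 := by
    intro a ha
    rw [mem_range] at ha
    have h2 := srt_mono f a (a + 1) (by omega) (by omega)
    have h3 : 0 ≤ ps (srt f ζ) (a + 1) ^ 2 := sq_nonneg _
    nlinarith
  linarith [Finset.sum_nonpos this]

/-- The optimal test vector. -/
def zz (M : ℕ) (i : ℕ) : ℝ :=
  Real.sqrt (((i : ℝ) + 1) * (M - ((i : ℝ) + 1))) - Real.sqrt ((i : ℝ) * (M - (i : ℝ)))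

lemma ps_zz (M a : ℕ) : ps (zz M) a = Real.sqrt ((a : ℝ) * (M - (a : ℝ))) := by
  induction a with
  | zero => simp [ps]
  | succ a ih =>
    rw [ps_succ, ih]
    unfold zz
    push_cast
    ring

/-- The value of the bound. -/
def VV (M : ℕ) : ℝ := ∑ i ∈ range M, (zz M i) ^ 2

lemma opt_identity {N : ℕ} (f : Fin (N + 1) → ℝ) :
    ∃ ζ : Fin (N + 1) → ℝ, ∑ i, ζ i = 0 ∧ ∑ i, (ζ i) ^ 2 = VV (N + 1) ∧
      ∑ i, ∑ j, |f i - f j| = - ∑ i, ∑ j, ζ i * ζ j * |f i - f j| := by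
  set σ := Tuple.sort f with hσ
  refine ⟨fun i => zz (N + 1) ((σ.symm i : Fin (N + 1)) : ℕ), ?_, ?_, ?_⟩
  · rw [Equiv.sum_comp σ.symm (fun i : Fin (N + 1) => zz (N + 1) (i : ℕ)),
      ← Finset.sum_range]
    have := ps_zz (N + 1) (N + 1)
    unfold ps at this
    rw [this]
    simp
  · rw [Equiv.sum_comp σ.symm (fun i : Fin (N + 1) => zz (N + 1) (i : ℕ) ^ 2)]
    unfold VV
    rw [Finset.sum_range]
  · set ζ : Fin (N + 1) → ℝ := fun i => zz (N + 1) ((σ.symm i : Fin (N + 1)) : ℕ) with hζ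
    have h1 : ∀ a, a ≤ N + 1 → ps (srt f ζ) a = Real.sqrt ((a : ℝ) * ((N + 1 : ℕ) - (a : ℝ))) := by
      intro a ha
      rw [← ps_zz]
      unfold ps
      refine Finset.sum_congr rfl fun i hi => ?_
      rw [mem_range] at hi
      unfold srt
      rw [dif_pos (by omega)]
      simp only [hζ, hσ, Equiv.symm_apply_apply]
    have h2 : ∑ i, ∑ j, |f i - f j| = ∑ i, ∑ j, (fun _ : Fin (N + 1) => (1 : ℝ)) i *
        (fun _ : Fin (N + 1) => (1 : ℝ)) j * |f i - f j| := by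
      simp
    rw [h2, ← sum_sum_srt, ← sum_sum_srt, main_identity _ _ _ (srt_mono f),
      main_identity _ _ _ (srt_mono f), ← mul_neg, ← Finset.sum_neg_distrib]
    congr 1
    refine Finset.sum_congr rfl fun a ha => ?_
    rw [mem_range] at ha
    have h3 : ∀ a, a ≤ N + 1 → ps (srt f (fun _ : Fin (N + 1) => (1 : ℝ))) a = a := by
      intro a ha
      unfold ps
      rw [Finset.sum_congr rfl (g := fun _ => (1 : ℝ))]
      · simp
      · intro i hi
        rw [mem_range] at hi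
        unfold srt
        rw [dif_pos (by omega)]
    rw [h1 _ (by omega), h1 _ (le_refl _), h3 _ (by omega), h3 _ (le_refl _)]
    push_cast
    have h4 : (0 : ℝ) ≤ ((a : ℝ) + 1) * ((N : ℝ) + 1 - ((a : ℝ) + 1)) := by
      have : (a : ℝ) + 1 ≤ N := by exact_mod_cast ha
      apply mul_nonneg
      · positivity
      · linarith
    have h5 := Real.mul_self_sqrt h4
    rw [sub_self, mul_zero, Real.sqrt_zero, zero_sub, mul_neg, h5]
    ring

/-- The total distance bound for a single coordinate, and its sum over coordinates. -/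
theorem basic_bound {n N : ℕ} (X : Fin (N + 1) → Fin n → ℝ) (t : ℝ)
    (hX : ∀ i j, i ≠ j → ∑ k, |X i k - X j k| = t) (ht : 0 < t) :
    ((N : ℝ) + 1) * N ≤ n * VV (N + 1) := by
  have hcoord : ∀ k, ∑ i, ∑ j, |X i k - X j k| ≤ t * VV (N + 1) := by
    intro k
    obtain ⟨ζ, h1, h2, h3⟩ := opt_identity (fun i => X i k)
    have h4 : ∑ l, (- ∑ i, ∑ j, ζ i * ζ j * |X i l - X j l|) = t * VV (N + 1) := by
      rw [Finset.sum_neg_distrib, Finset.sum_comm]
      have e1 : ∀ i, ∑ l, ∑ j, ζ i * ζ j * |X i l - X j l|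
          = t * (ζ i * ∑ j, ζ j) - t * (ζ i) ^ 2 := by
        intro i
        rw [Finset.sum_comm]
        have e2 : ∀ j, ∑ l, ζ i * ζ j * |X i l - X j l|
            = t * (ζ i * ζ j) - (if i = j then t * (ζ i) ^ 2 else 0) := by
          intro j
          rw [← Finset.mul_sum]
          by_cases hij : i = j
          · subst hij
            simp
            ring
          · rw [hX i j hij, if_neg hij]
            ring
        simp only [e2, Finset.sum_sub_distrib, Finset.sum_ite_eq, Finset.mem_univ, if_true]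
        rw [← Finset.mul_sum, ← Finset.mul_sum]
      simp only [e1, h1, mul_zero, zero_sub, Finset.sum_neg_distrib, neg_neg]
      rw [← Finset.mul_sum, h2]
    rw [← h4, h3]
    refine Finset.single_le_sum (f := fun l => - ∑ i, ∑ j, ζ i * ζ j * |X i l - X j l|)
      (fun l _ => ?_) (Finset.mem_univ k)
    have := neg_type (fun i => X i l) ζ h1
    linarith
  have htot : ∑ k, ∑ i, ∑ j, |X i k - X j k| = t * (((N : ℝ) + 1) * N) := by
    rw [Finset.sum_comm]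
    have e1 : ∀ i, ∑ k, ∑ j, |X i k - X j k| = t * N := by
      intro i
      rw [Finset.sum_comm]
      have e2 : ∀ j, ∑ k, |X i k - X j k| = t - (if i = j then t else 0) := by
        intro j
        by_cases hij : i = j
        · subst hij
          simp
        · rw [hX i j hij, if_neg hij, sub_zero]
      simp only [e2, Finset.sum_sub_distrib, Finset.sum_ite_eq, Finset.mem_univ, if_true]
      simp
      ring
    simp only [e1]
    simp
    ring
  have hle : ∑ k, ∑ i, ∑ j, |X i k - X j k| ≤ ∑ _k : Fin n, t * VV (N + 1) :=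
    Finset.sum_le_sum fun k _ => hcoord k
  rw [htot] at hle
  simp only [Finset.sum_const, Finset.card_univ, Fintype.card_fin, nsmul_eq_mul] at hle
  have : t * (((N : ℝ) + 1) * N) ≤ t * (n * VV (N + 1)) := by linarith
  exact le_of_mul_le_mul_left this ht

/-- The harmonic numbers as reals. -/
def HH (n : ℕ) : ℝ := ∑ i ∈ range n, 1 / ((i : ℝ) + 1)

lemma HH_eq (n : ℕ) : HH n = ((harmonic n : ℚ) : ℝ) := by
  unfold HH harmonic
  push_cast
  refine Finset.sum_congr rfl fun i _ => ?_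
  rw [one_div]

lemma HH_succ (n : ℕ) : HH (n + 1) = HH n + 1 / ((n : ℝ) + 1) := by
  unfold HH; rw [sum_range_succ]

lemma HH_le (n : ℕ) : HH n ≤ n := by
  unfold HH
  calc ∑ i ∈ range n, 1 / ((i : ℝ) + 1) ≤ ∑ _i ∈ range n, (1 : ℝ) := by
        refine Finset.sum_le_sum fun i _ => ?_
        rw [div_le_one (by positivity)]
        have : (0 : ℝ) ≤ i := Nat.cast_nonneg _
        linarith
    _ = n := by simp

lemma sum_refl1 (K : ℕ) : ∑ l ∈ range K, 1 / ((K : ℝ) - l) = HH K := by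
  unfold HH
  rw [← Finset.sum_range_reflect]
  refine Finset.sum_congr rfl fun l hl => ?_
  rw [mem_range] at hl
  congr 1
  have : ((K - 1 - l : ℕ) : ℝ) = (K : ℝ) - 1 - l := by
    rw [Nat.cast_sub (by omega), Nat.cast_sub (by omega)]
    push_cast
    ring
  rw [this]
  ring

lemma sum_shift1 (K : ℕ) : ∑ l ∈ range K, 1 / ((l : ℝ) + 2) = HH (K + 1) - 1 := by
  unfold HH
  rw [Finset.sum_range_succ']
  simp only [Nat.cast_add, Nat.cast_one, Nat.cast_zero, zero_add, div_one]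
  have : ∀ l ∈ range K, 1 / ((l : ℝ) + 2) = 1 / ((l : ℝ) + 1 + 1) := by
    intro l _
    congr 1
    ring
  rw [Finset.sum_congr rfl this]
  ring

lemma sum_refl2 (K : ℕ) : ∑ l ∈ range K, 1 / ((K : ℝ) + 1 - l) = HH (K + 1) - 1 := by
  rw [← sum_shift1, ← Finset.sum_range_reflect]
  refine Finset.sum_congr rfl fun l hl => ?_
  rw [mem_range] at hl
  congr 1
  have : ((K - 1 - l : ℕ) : ℝ) = (K : ℝ) - 1 - l := by
    rw [Nat.cast_sub (by omega), Nat.cast_sub (by omega)]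
    push_cast
    ring
  rw [this]
  ring

/-- The elementary estimate `(√p - √q)² ≤ (p-q)²/8 · (1/p + 1/q)`. -/
lemma sqrt_sub_sq_le {p q : ℝ} (hp : 0 < p) (hq : 0 < q) :
    (Real.sqrt p - Real.sqrt q) ^ 2 ≤ (p - q) ^ 2 / 8 * (1 / p + 1 / q) := by
  obtain ⟨x, hx, rfl⟩ : ∃ x : ℝ, 0 < x ∧ x ^ 2 = p :=
    ⟨Real.sqrt p, Real.sqrt_pos.2 hp, Real.sq_sqrt hp.le⟩
  obtain ⟨y, hy, rfl⟩ : ∃ y : ℝ, 0 < y ∧ y ^ 2 = q :=
    ⟨Real.sqrt q, Real.sqrt_pos.2 hq, Real.sq_sqrt hq.le⟩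
  rw [Real.sqrt_sq hx.le, Real.sqrt_sq hy.le]
  have h1 : 1 / x ^ 2 + 1 / y ^ 2 = (x ^ 2 + y ^ 2) / (x ^ 2 * y ^ 2) := by
    field_simp
    ring
  have h2 : (x ^ 2 - y ^ 2) ^ 2 = (x - y) ^ 2 * (x + y) ^ 2 := by ring
  rw [h1, h2]
  have h3 : 8 * (x ^ 2 * y ^ 2) ≤ (x + y) ^ 2 * (x ^ 2 + y ^ 2) := by
    have e1 : 4 * (x * y) ≤ (x + y) ^ 2 := by nlinarith [sq_nonneg (x - y)]
    have e2 : 2 * (x * y) ≤ x ^ 2 + y ^ 2 := by nlinarith [sq_nonneg (x - y)]
    have e3 : 0 < x * y := mul_pos hx hy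
    calc 8 * (x ^ 2 * y ^ 2) = (4 * (x * y)) * (2 * (x * y)) := by ring
      _ ≤ (x + y) ^ 2 * (x ^ 2 + y ^ 2) := by
          apply mul_le_mul e1 e2 (by positivity) (by positivity)
  have h4 : (x - y) ^ 2 * (x + y) ^ 2 / 8 * ((x ^ 2 + y ^ 2) / (x ^ 2 * y ^ 2))
      = (x - y) ^ 2 * ((x + y) ^ 2 * (x ^ 2 + y ^ 2) / (8 * (x ^ 2 * y ^ 2))) := by
    field_simp
  rw [h4]
  have h5 : 1 ≤ (x + y) ^ 2 * (x ^ 2 + y ^ 2) / (8 * (x ^ 2 * y ^ 2)) := by
    rw [le_div_iff₀ (by positivity)]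
    linarith
  nlinarith [sq_nonneg (x - y)]

lemma zz_interior (K l : ℕ) (hl : l < K) :
    (zz (K + 2) (l + 1)) ^ 2 ≤
      1 / 8 * ((((K : ℝ) + 2) ^ 2 + 1) / ((K : ℝ) + 2) *
        (1 / ((l : ℝ) + 1) + 1 / ((K : ℝ) + 1 - l) + 1 / ((l : ℝ) + 2) + 1 / ((K : ℝ) - l)) - 8
        + 2 * (- (1 / ((l : ℝ) + 1)) + 1 / ((K : ℝ) + 1 - l) + 1 / ((l : ℝ) + 2)
          - 1 / ((K : ℝ) - l))) := by
  have hl' : (l : ℝ) + 1 ≤ K := by exact_mod_cast hl
  have hl0 : (0 : ℝ) ≤ l := Nat.cast_nonneg _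
  have a1 : (0 : ℝ) < (l : ℝ) + 1 := by linarith
  have a2 : (0 : ℝ) < (l : ℝ) + 2 := by linarith
  have a3 : (0 : ℝ) < (K : ℝ) - l := by linarith
  have a4 : (0 : ℝ) < (K : ℝ) + 1 - l := by linarith
  have a5 : (0 : ℝ) < (K : ℝ) + 2 := by linarith
  have hp : 0 < ((l : ℝ) + 2) * ((K : ℝ) - l) := mul_pos a2 a3
  have hq : 0 < ((l : ℝ) + 1) * ((K : ℝ) + 1 - l) := mul_pos a1 a4
  have h1 : zz (K + 2) (l + 1) = Real.sqrt (((l : ℝ) + 2) * ((K : ℝ) - l))
      - Real.sqrt (((l : ℝ) + 1) * ((K : ℝ) + 1 - l)) := by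
    unfold zz
    push_cast
    congr 2 <;> ring
  rw [h1]
  refine (sqrt_sub_sq_le hp hq).trans (le_of_eq ?_)
  field_simp
  ring

theorem VV_le (K : ℕ) : VV (K + 2) ≤ ((K : ℝ) + 2) / 2 * (HH (K + 1) + 3 / 2) := by
  have h0 : VV (K + 2) = ∑ l ∈ range K, (zz (K + 2) (l + 1)) ^ 2 + 2 * ((K : ℝ) + 1) := by
    unfold VV
    rw [sum_range_succ, Finset.sum_range_succ']
    have e1 : zz (K + 2) 0 ^ 2 = (K : ℝ) + 1 := by
      unfold zz
      push_cast
      simp only [zero_add, zero_mul, Real.sqrt_zero, sub_zero, one_mul]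
      rw [Real.sq_sqrt (by have : (0 : ℝ) ≤ K := Nat.cast_nonneg _
                           linarith)]
      ring
    have e2 : zz (K + 2) (K + 1) ^ 2 = (K : ℝ) + 1 := by
      unfold zz
      push_cast
      have : ((K : ℝ) + 1 + 1) * ((K : ℝ) + 2 - ((K : ℝ) + 1 + 1)) = 0 := by ring
      rw [this, Real.sqrt_zero, zero_sub, neg_sq, Real.sq_sqrt]
      · ring
      · have : (0 : ℝ) ≤ K := Nat.cast_nonneg _
        apply mul_nonneg <;> linarith
    rw [e1, e2]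
    ring
  have h1 : ∑ l ∈ range K, (zz (K + 2) (l + 1)) ^ 2 ≤
      ∑ l ∈ range K, (1 / 8 * ((((K : ℝ) + 2) ^ 2 + 1) / ((K : ℝ) + 2) *
        (1 / ((l : ℝ) + 1) + 1 / ((K : ℝ) + 1 - l) + 1 / ((l : ℝ) + 2) + 1 / ((K : ℝ) - l)) - 8
        + 2 * (- (1 / ((l : ℝ) + 1)) + 1 / ((K : ℝ) + 1 - l) + 1 / ((l : ℝ) + 2)
          - 1 / ((K : ℝ) - l)))) :=
    Finset.sum_le_sum fun l hl => zz_interior K l (mem_range.1 hl)
  have h2 : ∑ l ∈ range K, (1 / 8 * ((((K : ℝ) + 2) ^ 2 + 1) / ((K : ℝ) + 2) *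
        (1 / ((l : ℝ) + 1) + 1 / ((K : ℝ) + 1 - l) + 1 / ((l : ℝ) + 2) + 1 / ((K : ℝ) - l)) - 8
        + 2 * (- (1 / ((l : ℝ) + 1)) + 1 / ((K : ℝ) + 1 - l) + 1 / ((l : ℝ) + 2)
          - 1 / ((K : ℝ) - l))))
      = 1 / 8 * ((((K : ℝ) + 2) ^ 2 + 1) / ((K : ℝ) + 2) *
        (HH K + (HH (K + 1) - 1) + (HH (K + 1) - 1) + HH K) - 8 * K
        + 2 * (- HH K + (HH (K + 1) - 1) + (HH (K + 1) - 1) - HH K)) := by
    have hHK : HH K = ∑ l ∈ range K, 1 / ((l : ℝ) + 1) := rfl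
    rw [← Finset.mul_sum]
    congr 1
    rw [Finset.sum_add_distrib, Finset.sum_sub_distrib, ← Finset.mul_sum, ← Finset.mul_sum,
      Finset.sum_add_distrib, Finset.sum_add_distrib, Finset.sum_add_distrib,
      Finset.sum_sub_distrib, Finset.sum_add_distrib, Finset.sum_add_distrib,
      Finset.sum_neg_distrib, sum_refl1, sum_refl2, sum_shift1, ← hHK]
    simp
    ring
  have h3 := HH_succ K
  have h4 := HH_le (K + 1)
  have hK0 : (0 : ℝ) ≤ K := Nat.cast_nonneg _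
  rw [h0]
  refine (add_le_add_left (h1.trans (le_of_eq h2)) _).trans ?_
  set H := HH (K + 1) with hH
  have h5 : HH K = H - 1 / ((K : ℝ) + 1) := by linarith
  rw [h5]
  push_cast at h4
  have e : 1 / 8 * ((((K : ℝ) + 2) ^ 2 + 1) / ((K : ℝ) + 2) *
        (H - 1 / ((K : ℝ) + 1) + (H - 1) + (H - 1) + (H - 1 / ((K : ℝ) + 1))) - 8 * K
        + 2 * (- (H - 1 / ((K : ℝ) + 1)) + (H - 1) + (H - 1) - (H - 1 / ((K : ℝ) + 1))))
        + 2 * ((K : ℝ) + 1)
      = ((K : ℝ) + 2) / 2 * (H + 3 / 2) - 3 / 4 + H / (2 * ((K : ℝ) + 2)) := by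
    field_simp
    ring
  rw [e]
  have : H / (2 * ((K : ℝ) + 2)) ≤ 3 / 4 := by
    rw [div_le_iff₀ (by positivity)]
    linarith
  linarith

end

/-- Every equilateral set `Y` in `ℓ_1^n` satisfies `2 (|Y| - 1) ≤ n (H_{|Y|-1} + 3/2)`, where `H_m`
is the `m`-th harmonic number. -/
theorem result (n : ℕ) (Y : Finset (Fin n → ℝ)) (t : ℝ) (ht : 0 < t)
    (hY : ∀ x ∈ Y, ∀ y ∈ Y, x ≠ y → ∑ k, |x k - y k| = t) :
    2 * ((Y.card : ℝ) - 1) ≤ n * (((harmonic (Y.card - 1) : ℚ) : ℝ) + 3 / 2) := by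
  have hn : (0 : ℝ) ≤ n := Nat.cast_nonneg _
  rcases Nat.lt_or_ge Y.card 2 with hc | hc
  · have h1 : (Y.card : ℝ) ≤ 1 := by
      have : Y.card ≤ 1 := by omega
      exact_mod_cast this
    have h2 : (0 : ℝ) ≤ ((harmonic (Y.card - 1) : ℚ) : ℝ) := by
      rw [← HH_eq]
      unfold HH
      positivity
    have h3 : (0 : ℝ) ≤ n * (((harmonic (Y.card - 1) : ℚ) : ℝ) + 3 / 2) :=
      mul_nonneg hn (by linarith)
    linarith
  · obtain ⟨K, hK⟩ : ∃ K, Y.card = K + 2 := ⟨Y.card - 2, by omega⟩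
    have e : Fin (K + 1 + 1) ≃ Y := (Y.equivFinOfCardEq hK).symm
    have hb := basic_bound (N := K + 1) (fun i => ((e i : Y) : Fin n → ℝ)) t (by
      intro i j hij
      apply hY _ (e i).2 _ (e j).2
      intro h
      exact hij (e.injective (Subtype.ext h))) ht
    have hv := VV_le K
    have hK1 : Y.card - 1 = K + 1 := by omega
    rw [hK1, ← HH_eq, hK]
    push_cast at hb ⊢
    have hKp : (0 : ℝ) < (K : ℝ) + 2 := by positivity
    have h1 : ((K : ℝ) + 2) * ((K : ℝ) + 1) ≤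
        ((K : ℝ) + 2) * (n / 2 * (HH (K + 1) + 3 / 2)) := by
      calc ((K : ℝ) + 2) * ((K : ℝ) + 1) = ((K : ℝ) + 1 + 1) * ((K : ℝ) + 1) := by ring
        _ ≤ n * VV (K + 1 + 1) := hb
        _ ≤ n * (((K : ℝ) + 2) / 2 * (HH (K + 1) + 3 / 2)) := mul_le_mul_of_nonneg_left hv hn
        _ = ((K : ℝ) + 2) * (n / 2 * (HH (K + 1) + 3 / 2)) := by ring
    have h2 := le_of_mul_le_mul_left h1 hKp
    linarith

end Pool.Agent.Results.MP_ee26ba_co.ExplicitBound
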