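import Mathlib

set_option autoImplicit false

namespace Pool.Agent.Results.MP_ee26ba_co.ManyValues

open Finset

noncomputable section

/-- The sign of a step. -/
def sg (a p : ℕ) : ℝ := if p ≤ a then 1 else -1

lemma sg_sum {w : ℕ → ℝ} {L p q : ℕ} (hpq : p ≤ q) (hq : q ≤ L) :
    ∑ a ∈ range L, (w (a + 1) - w a) * (1 - sg a p * sg a q) = 2 * (w q - w p) := by
  have h1 : ∀ a ∈ range L, (w (a + 1) - w a) * (1 - sg a p * sg a q)
      = if a ∈ Ico p q then 2 * (w (a + 1) - w a) else 0 := by
    intro a _
    unfold sg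
    by_cases h1 : p ≤ a <;> by_cases h2 : q ≤ a
    · rw [if_pos h1, if_pos h2, if_neg (by rw [mem_Ico]; omega)]
      ring
    · rw [if_pos h1, if_neg h2, if_pos (by rw [mem_Ico]; omega)]
      ring
    · omega
    · rw [if_neg h1, if_neg h2, if_neg (by rw [mem_Ico]; omega)]
      ring
  rw [Finset.sum_congr rfl h1, ← Finset.sum_filter]
  have h2 : (range L).filter (fun a => a ∈ Ico p q) = Ico p q := by
    ext a
    rw [mem_filter, mem_range, mem_Ico]
    omega
  rw [h2, ← Finset.mul_sum, Finset.sum_Ico_eq_sub _ hpq, Finset.sum_range_sub,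
    Finset.sum_range_sub]
  ring

lemma sg_sum_abs {w : ℕ → ℝ} {L p q : ℕ} (hp : p ≤ L) (hq : q ≤ L)
    (hw : ∀ i j, i ≤ j → j ≤ L → w i ≤ w j) :
    ∑ a ∈ range L, (w (a + 1) - w a) * (1 - sg a p * sg a q) = 2 * |w p - w q| := by
  rcases le_total p q with h | h
  · rw [sg_sum h hq, abs_sub_comm, abs_of_nonneg]
    linarith [hw p q h hq]
  · have : ∀ a ∈ range L, (w (a + 1) - w a) * (1 - sg a p * sg a q)
        = (w (a + 1) - w a) * (1 - sg a q * sg a p) := fun a _ => by ring
    rw [Finset.sum_congr rfl this, sg_sum h hp, abs_of_nonneg]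
    linarith [hw q p h hp]

lemma sg_sq (a p : ℕ) : sg a p * sg a p = 1 := by
  unfold sg; split_ifs <;> norm_num

lemma sg_mul_of_le {a b p : ℕ} (h : a ≤ b) : sg a p * sg b p = 1 - (sg b p - sg a p) := by
  unfold sg
  by_cases h1 : p ≤ a
  · rw [if_pos h1, if_pos (by omega)]; norm_num
  · by_cases h2 : p ≤ b
    · rw [if_neg h1, if_pos h2]; norm_num
    · rw [if_neg h1, if_neg h2]; norm_num

lemma sg_mono {a b p : ℕ} (h : a ≤ b) : sg a p ≤ sg b p := by
  unfold sg
  by_cases h1 : p ≤ a
  · rw [if_pos h1, if_pos (by omega)]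
  · rw [if_neg h1]
    split_ifs <;> norm_num

/-- Abstract form: `N` points, coordinate `k` takes the values `w k 0 < ... < w k (L k)`, each
of them at some point, the value at the point `i` being `w k (r k i)`. -/
theorem abstract_count {n N : ℕ} (hn : 1 ≤ n) (L : Fin n → ℕ) (w : Fin n → ℕ → ℝ)
    (r : Fin n → Fin N → ℕ) (hr : ∀ k i, r k i ≤ L k)
    (hw : ∀ k i j, i < j → j ≤ L k → w k i < w k j)
    (hsurj : ∀ k a, a ≤ L k → ∃ i, r k i = a) (t : ℝ) (ht : 0 < t)
    (hX : ∀ i j, i ≠ j → ∑ k, |w k (r k i) - w k (r k j)| = t)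
    (hN : 2 * n + 1 ≤ N) : N + 1 ≤ ∑ k, L k := by
  classical
  by_contra hcon
  push Not at hcon
  -- the cuts
  have hcardC' : Fintype.card (Σ k : Fin n, Fin (L k)) = ∑ k, L k := by
    rw [Fintype.card_sigma]
    simp
  set C := (Σ k : Fin n, Fin (L k)) with hC
  have hcardC : Fintype.card C = ∑ k, L k := hcardC'
  set lam : C → ℝ := fun c => w c.1 ((c.2 : ℕ) + 1) - w c.1 (c.2 : ℕ) with hlam
  have hlam0 : ∀ c, 0 < lam c := by
    intro c
    have := hw c.1 (c.2 : ℕ) ((c.2 : ℕ) + 1) (by omega) (by have := c.2.2; omega)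
    simp only [hlam]
    linarith
  set s : C → Fin N → ℝ := fun c i => sg (c.2 : ℕ) (r c.1 i) with hs
  set Lam : ℝ := ∑ c, lam c with hLam
  have hwm : ∀ k i j, i ≤ j → j ≤ L k → w k i ≤ w k j := by
    intro k i j hij hj
    rcases hij.eq_or_lt with h | h
    · rw [h]
    · exact (hw k i j h hj).le
  have hsep : ∀ i j, ∑ c, lam c * (1 - s c i * s c j) = 2 * ∑ k, |w k (r k i) - w k (r k j)| := by
    intro i j
    rw [Fintype.sum_sigma, Finset.mul_sum]
    refine Finset.sum_congr rfl fun k _ => ?_
    rw [← sg_sum_abs (hr k i) (hr k j) (hwm k), Finset.sum_range]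
  have hG : ∀ i j, ∑ c, lam c * (s c i * s c j) = Lam - 2 * t + (if i = j then 2 * t else 0) := by
    intro i j
    have h1 : ∑ c, lam c * (1 - s c i * s c j) = Lam - ∑ c, lam c * (s c i * s c j) := by
      rw [hLam, ← Finset.sum_sub_distrib]
      exact Finset.sum_congr rfl fun c _ => by ring
    have h2 := hsep i j
    rw [h1] at h2
    by_cases hij : i = j
    · subst hij
      simp only [sub_self, abs_zero, Finset.sum_const_zero, mul_zero] at h2
      rw [if_pos rfl]
      linarith
    · rw [hX i j hij] at h2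
      rw [if_neg hij]
      linarith
  -- the linear map
  let T : (Fin N → ℝ) →ₗ[ℝ] (C → ℝ) :=
    { toFun := fun u c => ∑ i, s c i * u i
      map_add' := by
        intro u v
        ext c
        simp only [Pi.add_apply]
        rw [← Finset.sum_add_distrib]
        exact Finset.sum_congr rfl fun i _ => by ring
      map_smul' := by
        intro a u
        ext c
        simp only [Pi.smul_apply, smul_eq_mul, RingHom.id_apply]
        rw [Finset.mul_sum]
        exact Finset.sum_congr rfl fun i _ => by ring }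
  have hT : ∀ u c, T u c = ∑ i, s c i * u i := fun u c => rfl
  have hstar : ∀ u i, ∑ c, lam c * (s c i * T u c) = 2 * t * u i + (Lam - 2 * t) * ∑ j, u j := by
    intro u i
    calc ∑ c, lam c * (s c i * T u c) = ∑ c, ∑ j, lam c * (s c i * s c j) * u j := by
          refine Finset.sum_congr rfl fun c _ => ?_
          rw [hT, Finset.mul_sum, Finset.mul_sum]
          exact Finset.sum_congr rfl fun j _ => by ring
      _ = ∑ j, (∑ c, lam c * (s c i * s c j)) * u j := by
          rw [Finset.sum_comm]
          refine Finset.sum_congr rfl fun j _ => ?_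
          rw [Finset.sum_mul]
      _ = ∑ j, ((Lam - 2 * t) * u j + (if i = j then 2 * t * u j else 0)) := by
          refine Finset.sum_congr rfl fun j _ => ?_
          rw [hG]
          split_ifs <;> ring
      _ = _ := by
          rw [Finset.sum_add_distrib, ← Finset.mul_sum]
          simp
          ring
  -- claim 1
  have hclaim1 : N ≤ Fintype.card C + 1 := by
    let T' : (Fin N → ℝ) →ₗ[ℝ] (C → ℝ) × ℝ := T.prod (∑ i, LinearMap.proj i)
    have hinj : Function.Injective T' := by
      rw [← LinearMap.ker_eq_bot, LinearMap.ker_eq_bot']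
      intro u hu
      have h1 : T u = 0 := congrArg Prod.fst hu
      have h2 : ∑ i, u i = 0 := by
        have := congrArg Prod.snd hu
        simpa [T', LinearMap.prod_apply] using this
      ext i
      have h3 := hstar u i
      rw [h1, h2] at h3
      simp only [Pi.zero_apply, mul_zero, Finset.sum_const_zero, add_zero] at h3
      have : u i = 0 := by
        rcases mul_eq_zero.1 h3.symm with h | h
        · linarith
        · exact h
      simpa using this
    have := LinearMap.finrank_le_finrank_of_injective hinj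
    simpa [Module.finrank_prod] using this
  have hdiff : ∀ k a b, a < b → b < L k →
      ∑ i, sg a (r k i) < ∑ i, sg b (r k i) := by
    intro k a b hab hb
    obtain ⟨i0, hi0⟩ := hsurj k b hb.le
    refine Finset.sum_lt_sum (fun i _ => sg_mono hab.le) ⟨i0, Finset.mem_univ _, ?_⟩
    rw [hi0]
    unfold sg
    rw [if_neg (by omega), if_pos (le_refl _)]
    norm_num
  -- balanced case
  have hbal : ¬ ∀ c, ∑ i, s c i = 0 := by
    intro hb
    have h1 : ∀ k, L k ≤ 1 := by
      intro k
      by_contra hk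
      push Not at hk
      have h2 := hdiff k 0 1 (by omega) hk
      have h3 := hb ⟨k, ⟨0, by omega⟩⟩
      have h4 := hb ⟨k, ⟨1, by omega⟩⟩
      simp only [hs] at h3 h4
      rw [h3, h4] at h2
      exact lt_irrefl _ h2
    have h2 : ∑ k, L k ≤ n := by
      calc ∑ k, L k ≤ ∑ _k : Fin n, 1 := Finset.sum_le_sum fun k _ => h1 k
        _ = n := by simp
    omega
  have hinjT : Function.Injective T := by
    rw [← LinearMap.ker_eq_bot, LinearMap.ker_eq_bot']
    intro u hu
    by_contra hne
    apply hbal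
    have h1 : ∀ i, 2 * t * u i = - (Lam - 2 * t) * ∑ j, u j := by
      intro i
      have h3 := hstar u i
      rw [hu] at h3
      simp only [Pi.zero_apply, mul_zero, Finset.sum_const_zero] at h3
      linarith
    obtain ⟨i0, hi0⟩ : ∃ i, u i ≠ 0 := by
      by_contra h
      push Not at h
      exact hne (by ext i; simpa using h i)
    have h2 : ∀ i, u i = u i0 := by
      intro i
      have := (h1 i).trans (h1 i0).symm
      exact mul_left_cancel₀ (by positivity) this
    intro c
    have h3 : T u c = 0 := by rw [hu]; rfl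
    rw [hT] at h3
    have h4 : ∑ i, s c i * u i = (∑ i, s c i) * u i0 := by
      rw [Finset.sum_mul]
      exact Finset.sum_congr rfl fun i _ => by rw [h2 i]
    rw [h4] at h3
    exact (mul_eq_zero.1 h3).resolve_right hi0
  have hNle : N ≤ Fintype.card C := by
    have := LinearMap.finrank_le_finrank_of_injective hinjT
    simpa using this
  have hcard : Fintype.card C = N := by omega
  have hsurjT : Function.Surjective T := by
    have h1 : Module.finrank ℝ (Fin N → ℝ) = Module.finrank ℝ (C → ℝ) := by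
      rw [Module.finrank_fin_fun, Module.finrank_fintype_fun_eq_card, hcard]
    exact (LinearMap.injective_iff_surjective_of_finrank_eq_finrank h1).1 hinjT
  set y : C → ℝ := fun c => ∑ i, s c i with hy
  set mu : ℝ := 2 * t + N * (Lam - 2 * t) with hmu
  have hmu0 : mu ≠ 0 := by
    intro h0
    apply hbal
    have h1 : ∀ i, ∑ c, lam c * (s c i * y c) = 0 := by
      intro i
      have h2 := hstar (fun _ => 1) i
      have h3 : ∀ c, T (fun _ => (1 : ℝ)) c = y c := by
        intro c
        rw [hT, hy]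
        simp
      simp only [h3] at h2
      rw [h2]
      simp
      rw [← h0, hmu]
      ring
    have h2 : ∑ c, lam c * (y c) ^ 2 = 0 := by
      have h3 : ∑ i, ∑ c, lam c * (s c i * y c) = 0 := Finset.sum_eq_zero fun i _ => h1 i
      rw [Finset.sum_comm] at h3
      rw [← h3]
      refine Finset.sum_congr rfl fun c _ => ?_
      rw [hy]
      simp only
      rw [← Finset.mul_sum, ← Finset.sum_mul]
      ring
    intro c
    have h3 := (Finset.sum_eq_zero_iff_of_nonneg
      (fun c _ => mul_nonneg (hlam0 c).le (sq_nonneg (y c)))).1 h2 c (Finset.mem_univ c)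
    rcases mul_eq_zero.1 h3 with h4 | h4
    · exact absurd h4 (hlam0 c).ne'
    · exact pow_eq_zero_iff (two_ne_zero) |>.1 h4
  have hinner : ∀ c d, c ≠ d →
      mu * ∑ i, s c i * s d i = (Lam - 2 * t) * (y c * y d) := by
    intro c d hcd
    obtain ⟨u, hu⟩ := hsurjT (Pi.single d 1)
    have h1 : ∀ i, lam d * s d i = 2 * t * u i + (Lam - 2 * t) * ∑ j, u j := by
      intro i
      rw [← hstar u i, hu]
      rw [Finset.sum_eq_single d]
      · simp
      · intro b _ hb
        rw [Pi.single_eq_of_ne hb]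
        ring
      · intro h
        exact absurd (Finset.mem_univ d) h
    have h2 : ∑ i, s c i * u i = 0 := by
      rw [← hT, hu, Pi.single_eq_of_ne hcd]
    have h3 : lam d * ∑ i, s c i * s d i = (Lam - 2 * t) * (∑ j, u j) * y c := by
      have e1 : lam d * ∑ i, s c i * s d i = ∑ i, s c i * (lam d * s d i) := by
        rw [Finset.mul_sum]
        exact Finset.sum_congr rfl fun i _ => by ring
      rw [e1]
      have e2 : ∀ i ∈ univ, s c i * (lam d * s d i)
          = 2 * t * (s c i * u i) + (Lam - 2 * t) * (∑ j, u j) * s c i := by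
        intro i _
        rw [h1 i]
        ring
      rw [Finset.sum_congr rfl e2, Finset.sum_add_distrib, ← Finset.mul_sum, h2,
        ← Finset.mul_sum]
      simp only [hy]
      ring
    have h4 : lam d * y d = mu * ∑ j, u j := by
      have e1 : lam d * y d = ∑ i, lam d * s d i := by
        rw [hy, Finset.mul_sum]
      rw [e1, Finset.sum_congr rfl (fun i _ => h1 i), Finset.sum_add_distrib, ← Finset.mul_sum]
      simp
      rw [hmu]
      ring
    have h5 : lam d * (mu * ∑ i, s c i * s d i) = lam d * ((Lam - 2 * t) * (y c * y d)) := by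
      calc lam d * (mu * ∑ i, s c i * s d i) = mu * (lam d * ∑ i, s c i * s d i) := by ring
        _ = (Lam - 2 * t) * y c * (mu * ∑ j, u j) := by rw [h3]; ring
        _ = (Lam - 2 * t) * y c * (lam d * y d) := by rw [← h4]
        _ = _ := by ring
    exact mul_left_cancel₀ (hlam0 d).ne' h5
  -- a coordinate with three cuts
  obtain ⟨k, hk⟩ : ∃ k, 3 ≤ L k := by
    by_contra h
    push Not at h
    have h2 : ∑ k, L k ≤ ∑ _k : Fin n, 2 := Finset.sum_le_sum fun k _ => by
      have := h k
      omega
    simp only [Finset.sum_const, Finset.card_univ, Fintype.card_fin, smul_eq_mul] at h2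
    omega
  have hgen : ∀ a b (ha : a < b) (hb : b < L k),
      mu * (N - ∑ i, sg b (r k i) + ∑ i, sg a (r k i))
        = (Lam - 2 * t) * ((∑ i, sg a (r k i)) * ∑ i, sg b (r k i)) := by
    intro a b ha hb
    have h1 := hinner ⟨k, ⟨a, by omega⟩⟩ ⟨k, ⟨b, hb⟩⟩ (by
      intro h
      have h2 := (Sigma.mk.inj h).2
      have h3 := eq_of_heq h2
      rw [Fin.mk.injEq] at h3
      omega)
    simp only [hs, hy] at h1
    rw [← h1]
    congr 1
    have h2 : ∀ i ∈ univ, sg a (r k i) * sg b (r k i) = 1 - sg b (r k i) + sg a (r k i) := by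
      intro i _
      rw [sg_mul_of_le ha.le]
      ring
    rw [Finset.sum_congr rfl h2, Finset.sum_add_distrib, Finset.sum_sub_distrib]
    simp
  have g01 := hgen 0 1 (by omega) (by omega)
  have g12 := hgen 1 2 (by omega) (by omega)
  have g02 := hgen 0 2 (by omega) (by omega)
  have d01 := hdiff k 0 1 (by omega) (by omega)
  have d12 := hdiff k 1 2 (by omega) (by omega)
  set ya := ∑ i, sg 0 (r k i)
  set yb := ∑ i, sg 1 (r k i)
  set yc := ∑ i, sg 2 (r k i)
  have e1 : (Lam - 2 * t) * ya = - mu := by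
    have : (yc - yb) * ((Lam - 2 * t) * ya + mu) = 0 := by linear_combination g01 - g02
    rcases mul_eq_zero.1 this with h | h
    · linarith
    · linarith
  have e2 : (Lam - 2 * t) * yc = mu := by
    have : (ya - yb) * ((Lam - 2 * t) * yc - mu) = 0 := by linear_combination g12 - g02
    rcases mul_eq_zero.1 this with h | h
    · linarith
    · linarith
  have e3 : mu * ((N : ℝ) + ya) = 0 := by
    linear_combination g02 + yc * e1
  have e4 : (N : ℝ) + ya = 0 := (mul_eq_zero.1 e3).resolve_left hmu0
  obtain ⟨i0, hi0⟩ := hsurj k 0 (by omega)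
  have e5 : - (N : ℝ) < ya := by
    have h1 : ∑ _i : Fin N, (-1 : ℝ) < ∑ i, sg 0 (r k i) := by
      refine Finset.sum_lt_sum (fun i _ => ?_) ⟨i0, Finset.mem_univ _, ?_⟩
      · unfold sg
        split_ifs <;> norm_num
      · rw [hi0]
        unfold sg
        norm_num
    simpa using h1
  linarith

end

/-- If `Y` is an equilateral set in `ℓ_1^n` (`n ≥ 1`) with at least `2 n + 1` points, then the
numbers `v_k` of distinct values of the coordinates satisfy `∑ (v_k - 1) ≥ |Y| + 1`. -/
theorem result (n : ℕ) (hn : 1 ≤ n) (Y : Finset (Fin n → ℝ)) (t : ℝ) (ht : 0 < t)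
    (hY : ∀ x ∈ Y, ∀ y ∈ Y, x ≠ y → ∑ k, |x k - y k| = t) (hcard : 2 * n + 1 ≤ Y.card) :
    Y.card + 1 ≤ ∑ k, ((Y.image (fun x => x k)).card - 1) := by
  classical
  obtain ⟨y0, hy0⟩ : Y.Nonempty := Finset.card_pos.1 (by omega)
  let e : Fin Y.card ≃ Y := (Y.equivFin).symm
  let V : Fin n → Finset ℝ := fun k => Y.image (fun x => x k)
  have hVpos : ∀ k, 0 < (V k).card := fun k =>
    Finset.card_pos.2 ⟨y0 k, Finset.mem_image_of_mem _ hy0⟩
  have hmem : ∀ k (i : Fin Y.card), ((e i : Y) : Fin n → ℝ) k ∈ V k := fun k i =>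
    Finset.mem_image_of_mem _ (e i).2
  let w : Fin n → ℕ → ℝ := fun k a =>
    if h : a < (V k).card then (V k).orderEmbOfFin rfl ⟨a, h⟩ else 0
  let r : Fin n → Fin Y.card → ℕ := fun k i =>
    (((V k).orderIsoOfFin rfl).symm ⟨((e i : Y) : Fin n → ℝ) k, hmem k i⟩ : Fin (V k).card)
  have hwr : ∀ k i, w k (r k i) = ((e i : Y) : Fin n → ℝ) k := by
    intro k i
    have h1 : r k i < (V k).card := Fin.is_lt _
    have h2 : w k (r k i) = (V k).orderEmbOfFin rfl ⟨r k i, h1⟩ := by
      simp only [w]
      rw [dif_pos h1]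
    rw [h2]
    have h3 : (V k).orderEmbOfFin rfl ⟨r k i, h1⟩
        = ((V k).orderIsoOfFin rfl ⟨r k i, h1⟩ : ℝ) := rfl
    rw [h3]
    have h4 : (⟨r k i, h1⟩ : Fin (V k).card)
        = ((V k).orderIsoOfFin rfl).symm ⟨((e i : Y) : Fin n → ℝ) k, hmem k i⟩ := rfl
    rw [h4, OrderIso.apply_symm_apply]
  refine abstract_count hn (fun k => (V k).card - 1) w r ?_ ?_ ?_ t ht ?_ hcard
  · intro k i
    have h1 : r k i < (V k).card := Fin.is_lt _
    show r k i ≤ (V k).card - 1
    omega
  · intro k i j hij hj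
    have hp := hVpos k
    have hj' : j < (V k).card := by
      have : j ≤ (V k).card - 1 := hj
      omega
    have hi' : i < (V k).card := by omega
    simp only [w]
    rw [dif_pos hi', dif_pos hj']
    exact ((V k).orderEmbOfFin rfl).strictMono (by rw [Fin.mk_lt_mk]; exact hij)
  · intro k a ha
    have hp := hVpos k
    have ha' : a < (V k).card := by
      have : a ≤ (V k).card - 1 := ha
      omega
    have h1 : (V k).orderEmbOfFin rfl ⟨a, ha'⟩ ∈ V k := Finset.orderEmbOfFin_mem _ _ _
    obtain ⟨x, hx, hxk⟩ := Finset.mem_image.1 h1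
    refine ⟨e.symm ⟨x, hx⟩, ?_⟩
    simp only [r]
    have h2 : ((⟨((e (e.symm ⟨x, hx⟩) : Y) : Fin n → ℝ) k, hmem k _⟩ : V k))
        = (V k).orderIsoOfFin rfl ⟨a, ha'⟩ := by
      apply Subtype.ext
      have h3 : ((e (e.symm ⟨x, hx⟩) : Y) : Fin n → ℝ) = x := by
        rw [Equiv.apply_symm_apply]
      show ((e (e.symm ⟨x, hx⟩) : Y) : Fin n → ℝ) k = _
      rw [h3]
      exact hxk
    rw [h2, OrderIso.symm_apply_apply]
  · intro i j hij
    simp only [hwr]
    apply hY _ (e i).2 _ (e j).2
    intro h
    exact hij (e.injective (Subtype.ext h))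

end Pool.Agent.Results.MP_ee26ba_co.ManyValues
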