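import Mathlib

set_option autoImplicit false

namespace Pool.Agent.Results.MP_ee26ba_co.SymmetricSets

open Finset

noncomputable section

variable {Y : Type*}

/-- The space `W` of real functions on `Y` is invariant under the permutations in `G`. -/
def Inv (G : Subgroup (Equiv.Perm Y)) (W : Submodule ℝ (Y → ℝ)) : Prop :=
  ∀ g ∈ G, ∀ f ∈ W, (fun x => f (g x)) ∈ W

/-- The invariant space `E` of real functions on `Y` is multiplicity free: the lattice of its
invariant subspaces is distributive. -/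
def MultFree (G : Subgroup (Equiv.Perm Y)) (E : Submodule ℝ (Y → ℝ)) : Prop :=
  Inv G E ∧ ∀ A B C : Submodule ℝ (Y → ℝ), A ≤ E → B ≤ E → C ≤ E →
    Inv G A → Inv G B → Inv G C → A ⊓ (B ⊔ C) ≤ (A ⊓ B) ⊔ (A ⊓ C)

/-! ### Orthogonal decomposition -/

section lin

variable [Fintype Y]

lemma orth (K : Submodule ℝ (Y → ℝ)) (v : Y → ℝ) :
    ∃ y ∈ K, ∃ z : Y → ℝ, (∀ k ∈ K, ∑ x, k x * z x = 0) ∧ v = y + z := by
  let e := WithLp.linearEquiv 2 ℝ (Y → ℝ)
  let K' : Submodule ℝ (EuclideanSpace ℝ Y) := K.comap e.toLinearMap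
  obtain ⟨y, hy, z, hz, h⟩ := K'.exists_add_mem_mem_orthogonal (e.symm v)
  refine ⟨e y, hy, e z, ?_, ?_⟩
  · intro k hk
    have h1 : (e.symm k) ∈ K' := by
      change e (e.symm k) ∈ K
      rwa [LinearEquiv.apply_symm_apply]
    have h2 := hz _ h1
    rw [PiLp.inner_apply] at h2
    rw [← h2]
    refine sum_congr rfl fun x _ => ?_
    simp only [RCLike.inner_apply, conj_trivial]
    rw [mul_comm]
    rfl
  · have := congrArg e h
    rwa [LinearEquiv.apply_symm_apply, map_add] at this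

lemma zero_of_sq {d : Y → ℝ} (h : ∑ x, d x * d x = 0) : d = 0 := by
  funext x
  have h1 := (sum_eq_zero_iff_of_nonneg (fun x _ => mul_self_nonneg (d x))).1 h x (mem_univ x)
  exact mul_self_eq_zero.1 h1

lemma sum_perm (k w : Y → ℝ) (g : Equiv.Perm Y) :
    ∑ x, k x * w (g x) = ∑ x, k (g⁻¹ x) * w x := by
  refine Fintype.sum_equiv g _ _ fun x => ?_
  simp

/-- the invariant space generated by a function -/
def M (G : Subgroup (Equiv.Perm Y)) (u : Y → ℝ) : Submodule ℝ (Y → ℝ) :=
  Submodule.span ℝ {f | ∃ g ∈ G, f = fun x => u (g x)}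

omit [Fintype Y] in
lemma self_mem (G : Subgroup (Equiv.Perm Y)) (u : Y → ℝ) : u ∈ M G u :=
  Submodule.subset_span ⟨1, G.one_mem, rfl⟩

omit [Fintype Y] in
lemma mem_M {G : Subgroup (Equiv.Perm Y)} {g : Equiv.Perm Y} (hg : g ∈ G) (u : Y → ℝ) :
    (fun x => u (g x)) ∈ M G u := Submodule.subset_span ⟨g, hg, rfl⟩

omit [Fintype Y] in
lemma inv_M (G : Subgroup (Equiv.Perm Y)) (u : Y → ℝ) : Inv G (M G u) := by
  intro g hg f hf
  have h1 : M G u ≤ (M G u).comap (LinearMap.funLeft ℝ ℝ (g : Y → Y)) := by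
    refine Submodule.span_le.2 ?_
    rintro _ ⟨h, hh, rfl⟩
    exact mem_M (G.mul_mem hh hg) u
  exact h1 hf

omit [Fintype Y] in
lemma M_le {G : Subgroup (Equiv.Perm Y)} {W : Submodule ℝ (Y → ℝ)} (hW : Inv G W) {u : Y → ℝ}
    (hu : u ∈ W) : M G u ≤ W := by
  refine Submodule.span_le.2 ?_
  rintro _ ⟨h, hh, rfl⟩
  exact hW h hh u hu

/-- functions fixed by the permutations in `H` -/
def Fix (H : Subgroup (Equiv.Perm Y)) (u : Y → ℝ) : Prop := ∀ h ∈ H, ∀ x, u (h x) = u x

lemma cyc2 {G H : Subgroup (Equiv.Perm Y)} (hHG : H ≤ G) {E : Submodule ℝ (Y → ℝ)}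
    (hE : MultFree G E) {u₁ u₂ : Y → ℝ} (h1 : u₁ ∈ E) (h2 : u₂ ∈ E) (f1 : Fix H u₁)
    (f2 : Fix H u₂) : ∃ u ∈ E, Fix H u ∧ u₁ ∈ M G u ∧ u₂ ∈ M G u := by
  obtain ⟨y, hy, w, hw, e⟩ := orth (M G u₁) u₂
  have hperm : ∀ g ∈ G, ∀ k ∈ M G u₁, ∑ x, k x * w (g x) = 0 := by
    intro g hg k hk
    rw [sum_perm]
    exact hw _ (inv_M G u₁ _ (G.inv_mem hg) k hk)
  have hwf : Fix H w := by
    intro h hh
    have hd : (fun x => w (h x) - w x) = fun x => y x - y (h x) := by
      funext x
      have e1 := congrFun e x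
      have e2 := congrFun e (h x)
      simp only [Pi.add_apply] at e1 e2
      have e3 := f2 h hh x
      linarith
    have hmem : (fun x => w (h x) - w x) ∈ M G u₁ := by
      rw [hd]
      exact (M G u₁).sub_mem hy (inv_M G u₁ h (hHG hh) y hy)
    have h0 : (fun x => w (h x) - w x) = 0 := by
      refine zero_of_sq ?_
      have e1 := hperm h (hHG hh) _ hmem
      have e2 := hw _ hmem
      calc ∑ x, (w (h x) - w x) * (w (h x) - w x)
          = ∑ x, (w (h x) - w x) * w (h x) - ∑ x, (w (h x) - w x) * w x := by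
            rw [← sum_sub_distrib]
            exact sum_congr rfl fun x _ => by ring
        _ = 0 := by rw [e1, e2, sub_zero]
    intro x
    have := congrFun h0 x
    simp only [Pi.zero_apply] at this
    linarith
  have hwE : w ∈ E := by
    have : w = u₂ - y := by rw [e]; simp
    rw [this]
    exact E.sub_mem h2 (M_le hE.1 h1 hy)
  have huE : u₁ + w ∈ E := E.add_mem h1 hwE
  have hort : ∀ f ∈ M G w, ∀ k ∈ M G u₁, ∑ x, k x * f x = 0 := by
    intro f hf k hk
    refine Submodule.span_induction (p := fun f _ => ∑ x, k x * f x = 0) ?_ ?_ ?_ ?_ hf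
    · rintro _ ⟨g, hg, rfl⟩
      exact hperm g hg k hk
    · simp
    · intro a b _ _ ha hb
      simp only [Pi.add_apply, mul_add, sum_add_distrib, ha, hb, add_zero]
    · intro c a _ ha
      simp only [Pi.smul_apply, smul_eq_mul]
      calc ∑ x, k x * (c * a x) = c * ∑ x, k x * a x := by
            rw [mul_sum]
            exact sum_congr rfl fun x _ => by ring
        _ = 0 := by rw [ha, mul_zero]
  have hd := hE.2 (M G (u₁ + w)) (M G u₁) (M G w) (M_le hE.1 huE) (M_le hE.1 h1)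
    (M_le hE.1 hwE) (inv_M _ _) (inv_M _ _) (inv_M _ _)
  have hu : u₁ + w ∈ M G (u₁ + w) ⊓ (M G u₁ ⊔ M G w) :=
    ⟨self_mem _ _, Submodule.add_mem_sup (self_mem _ _) (self_mem _ _)⟩
  obtain ⟨a, ha, b, hb, hab⟩ := Submodule.mem_sup.1 (hd hu)
  have h3 : (fun x => u₁ x - a x) = fun x => b x - w x := by
    funext x
    have := congrFun hab x
    simp only [Pi.add_apply] at this
    linarith
  have h4 : (fun x => u₁ x - a x) = 0 := by
    refine zero_of_sq ?_
    have h5 : (fun x => u₁ x - a x) ∈ M G u₁ := (M G u₁).sub_mem (self_mem _ _) ha.2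
    have h6 : (fun x => u₁ x - a x) ∈ M G w := by
      rw [h3]
      exact (M G w).sub_mem hb.2 (self_mem _ _)
    exact hort _ h6 _ h5
  have h5 : u₁ = a := by
    funext x
    have := congrFun h4 x
    simp only [Pi.zero_apply] at this
    linarith
  have h6 : w = b := by
    funext x
    have := congrFun (h3.symm.trans h4) x
    simp only [Pi.zero_apply] at this
    linarith
  have h7 : u₁ ∈ M G (u₁ + w) := by
    have := ha.1
    rwa [← h5] at this
  have h8 : w ∈ M G (u₁ + w) := by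
    have := hb.1
    rwa [← h6] at this
  refine ⟨u₁ + w, huE, ?_, h7, ?_⟩
  · intro h hh x
    simp only [Pi.add_apply, f1 h hh x, hwf h hh x]
  · rw [e]
    exact (M G (u₁ + w)).add_mem (M_le (inv_M _ _) h7 hy) h8

lemma cyc {G H : Subgroup (Equiv.Perm Y)} (hHG : H ≤ G) {E : Submodule ℝ (Y → ℝ)}
    (hE : MultFree G E) : ∃ u ∈ E, Fix H u ∧ ∀ f ∈ E, Fix H f → f ∈ M G u := by
  let F : Submodule ℝ (Y → ℝ) :=
    { carrier := {f | f ∈ E ∧ Fix H f}
      add_mem' := fun {a b} ha hb => ⟨E.add_mem ha.1 hb.1, fun h hh x => by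
        simp only [Pi.add_apply, ha.2 h hh x, hb.2 h hh x]⟩
      zero_mem' := ⟨E.zero_mem, fun h hh x => rfl⟩
      smul_mem' := fun c a ha => ⟨E.smul_mem c ha.1, fun h hh x => by
        simp only [Pi.smul_apply, ha.2 h hh x]⟩ }
  obtain ⟨s, hs⟩ : F.FG := IsNoetherian.noetherian F
  have key : ∀ s : Finset (Y → ℝ), (∀ f ∈ s, f ∈ E ∧ Fix H f) →
      ∃ u ∈ E, Fix H u ∧ ∀ f ∈ s, f ∈ M G u := by
    classical
    intro s
    induction s using Finset.induction_on with
    | empty => exact fun _ => ⟨0, E.zero_mem, fun h hh x => rfl, fun f hf => by simp at hf⟩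
    | insert a s ha ih =>
      intro h
      obtain ⟨u', hu', hf', hs'⟩ := ih fun f hf => h f (mem_insert_of_mem hf)
      obtain ⟨ha1, ha2⟩ := h a (mem_insert_self a s)
      obtain ⟨u, hu, hf, h1, h2⟩ := cyc2 hHG hE hu' ha1 hf' ha2
      refine ⟨u, hu, hf, fun f hfs => ?_⟩
      rcases mem_insert.1 hfs with rfl | hfs
      · exact h2
      · exact M_le (inv_M G u) h1 (hs' f hfs)
  obtain ⟨u, hu, hf, h⟩ := key s fun f hf => by
    have : f ∈ F := by
      rw [← hs]
      exact Submodule.subset_span hf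
    exact this
  refine ⟨u, hu, hf, fun f hfE hfix => ?_⟩
  have h1 : F ≤ M G u := by
    rw [← hs]
    exact Submodule.span_le.2 h
  exact h1 ⟨hfE, hfix⟩

lemma avg {G H : Subgroup (Equiv.Perm Y)} (hHG : H ≤ G) {ι : Type*} [Fintype ι]
    {E : ι → Submodule ℝ (Y → ℝ)} (hE : ∀ i, Inv G (E i)) (hsup : ⨆ i, E i = ⊤)
    {f : Y → ℝ} (hf : Fix H f) :
    ∃ a : ι → Y → ℝ, (∀ i, a i ∈ E i) ∧ (∀ i, Fix H (a i)) ∧ f = ∑ i, a i := by
  classical
  have h1 : f ∈ ⨆ i ∈ (univ : Finset ι), E i := by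
    have : ⨆ i ∈ (univ : Finset ι), E i = ⨆ i, E i := by simp
    rw [this, hsup]
    trivial
  obtain ⟨b, hb⟩ := (Submodule.mem_iSup_finset_iff_exists_sum (fun i => E i) f).1 h1
  have hc : (Fintype.card H : ℝ) ≠ 0 := by
    exact_mod_cast Fintype.card_ne_zero
  refine ⟨fun i => (Fintype.card H : ℝ)⁻¹ • ∑ h : H, fun x => (b i : Y → ℝ) ((h : Equiv.Perm Y) x),
    fun i => ?_, fun i => ?_, ?_⟩
  · exact (E i).smul_mem _ ((E i).sum_mem fun h _ => hE i h (hHG h.2) _ (b i).2)
  · intro g hg x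
    simp only [Pi.smul_apply, Finset.sum_apply]
    congr 1
    refine Fintype.sum_equiv (Equiv.mulRight (⟨g, hg⟩ : H)) _ _ fun h => ?_
    rfl
  · funext x
    rw [Finset.sum_apply]
    simp only [Pi.smul_apply, Finset.sum_apply, smul_eq_mul]
    rw [← mul_sum, sum_comm]
    have h2 : ∀ h : H, ∑ i, (b i : Y → ℝ) ((h : Equiv.Perm Y) x) = f x := by
      intro h
      rw [← hf h h.2 x, ← hb, Finset.sum_apply]
    rw [sum_congr rfl fun h _ => h2 h, sum_const, card_univ, nsmul_eq_mul, ← mul_assoc,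
      inv_mul_cancel₀ hc, one_mul]

end lin

/-! ### Coordinates -/

variable {n : ℕ}

/-- a signed coordinate -/
def cS (p : Fin n → Y → ℝ) (s : Fin n × Bool) (x : Y) : ℝ :=
  if s.2 then p s.1 x else - p s.1 x

/-- the permutation `g` carries the signed coordinate `s` to the signed coordinate `s'` -/
def R (p : Fin n → Y → ℝ) (g : Equiv.Perm Y) (s s' : Fin n × Bool) : Prop :=
  ∃ a : ℝ, ∀ x, cS p s (g x) = cS p s' x + a

variable {p : Fin n → Y → ℝ}

lemma R_one (s : Fin n × Bool) : R p 1 s s := ⟨0, fun x => by simp⟩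

lemma R_mul {g h : Equiv.Perm Y} {s s' s'' : Fin n × Bool} (h1 : R p g s s') (h2 : R p h s' s'') :
    R p (g * h) s s'' := by
  obtain ⟨a, ha⟩ := h1
  obtain ⟨b, hb⟩ := h2
  refine ⟨b + a, fun x => ?_⟩
  rw [Equiv.Perm.mul_apply, ha, hb, add_assoc]

lemma R_inv {g : Equiv.Perm Y} {s s' : Fin n × Bool} (h1 : R p g s s') : R p g⁻¹ s' s := by
  obtain ⟨a, ha⟩ := h1
  refine ⟨-a, fun x => ?_⟩
  have := ha (g⁻¹ x)
  rw [show g (g⁻¹ x) = x by simp] at this
  linarith

lemma cS_not (s : Fin n × Bool) (x : Y) : cS p (s.1, !s.2) x = - cS p s x := by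
  unfold cS
  rcases s with ⟨k, b⟩
  cases b <;> simp

lemma R_neg {g : Equiv.Perm Y} {s s' : Fin n × Bool} (h1 : R p g s s') :
    R p g (s.1, !s.2) (s'.1, !s'.2) := by
  obtain ⟨a, ha⟩ := h1
  refine ⟨-a, fun x => ?_⟩
  rw [cS_not, cS_not, ha]
  ring

lemma cS_eq_iff (s : Fin n × Bool) (x y : Y) : cS p s x = cS p s y ↔ p s.1 x = p s.1 y := by
  unfold cS
  split_ifs
  · rfl
  · exact neg_inj

variable (p) in
/-- functions of the `k`-th coordinate -/
def D (k : Fin n) : Submodule ℝ (Y → ℝ) where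
  carrier := {f | ∀ x y, p k x = p k y → f x = f y}
  add_mem' := fun {a b} ha hb x y h => by simp only [Pi.add_apply, ha x y h, hb x y h]
  zero_mem' := fun x y h => rfl
  smul_mem' := fun c a ha x y h => by simp only [Pi.smul_apply, ha x y h]

lemma mem_D {k : Fin n} {f : Y → ℝ} : f ∈ D p k ↔ ∀ x y, p k x = p k y → f x = f y := Iff.rfl

lemma D_comp {g : Equiv.Perm Y} {s s' : Fin n × Bool} (h : R p g s s') {f : Y → ℝ}
    (hf : f ∈ D p s.1) : (fun x => f (g x)) ∈ D p s'.1 := by
  obtain ⟨a, ha⟩ := h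
  intro x y hxy
  have h1 := (cS_eq_iff s' x y).2 hxy
  refine hf _ _ ((cS_eq_iff s _ _).1 ?_)
  rw [ha, ha, h1]

section main

variable [Fintype Y]

lemma R_self {g : Equiv.Perm Y} {s : Fin n × Bool} (h : R p g s s) (x : Y) :
    p s.1 (g x) = p s.1 x := by
  obtain ⟨a, ha⟩ := h
  have h1 : ∑ x, cS p s (g x) = ∑ x, cS p s x := Equiv.sum_comp g (cS p s)
  have h2 : ∑ x, cS p s (g x) = ∑ x, cS p s x + Fintype.card Y * a := by
    rw [sum_congr rfl fun x _ => ha x, sum_add_distrib, sum_const, card_univ, nsmul_eq_mul]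
  have h3 : (Fintype.card Y : ℝ) ≠ 0 := by
    have : Nonempty Y := ⟨x⟩
    exact_mod_cast Fintype.card_ne_zero
  have h4 : a = 0 := by
    have : (Fintype.card Y : ℝ) * a = 0 := by linarith
    exact (mul_eq_zero.1 this).resolve_left h3
  rw [← cS_eq_iff, ha, h4, add_zero]

/-- the coordinates which are reversed by an element of `G` -/
def Rev (p : Fin n → Y → ℝ) (G : Subgroup (Equiv.Perm Y)) (k : Fin n) : Prop :=
  ∃ g ∈ G, ∃ a : ℝ, ∀ x, p k (g x) = a - p k x

omit [Fintype Y] in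
lemma rev_of {G : Subgroup (Equiv.Perm Y)} {k : Fin n} {g : Equiv.Perm Y} (hg : g ∈ G)
    (h : R p g (k, true) (k, false)) : Rev p G k := by
  obtain ⟨a, ha⟩ := h
  refine ⟨g, hg, a, fun x => ?_⟩
  have := ha x
  simp only [cS] at this
  simp at this
  linarith

open Classical in
theorem main_abs (p : Fin n → Y → ℝ) (G : Subgroup (Equiv.Perm Y))
    (hR : ∀ g ∈ G, ∀ k, ∃ k' b, R p g (k, true) (k', b)) (hD : ⨆ k, D p k = ⊤)
    {ι : Type*} [Fintype ι] (E : ι → Submodule ℝ (Y → ℝ)) (hE : ∀ i, MultFree G (E i))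
    (hsup : ⨆ i, E i = ⊤) :
    Fintype.card Y ≤ Fintype.card ι * (n + (univ.filter fun k => Rev p G k).card) := by
  -- classes of coordinates
  let st : Setoid (Fin n) :=
    { r := fun k k' => ∃ g ∈ G, ∃ b, R p g (k, true) (k', b)
      iseqv :=
        { refl := fun k => ⟨1, G.one_mem, true, R_one _⟩
          symm := by
            rintro k k' ⟨g, hg, b, h⟩
            have h1 := R_inv h
            cases b
            · exact ⟨g⁻¹, G.inv_mem hg, false, R_neg h1⟩
            · exact ⟨g⁻¹, G.inv_mem hg, true, h1⟩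
          trans := by
            rintro k k' k'' ⟨g, hg, b, h⟩ ⟨g', hg', b', h'⟩
            cases b
            · exact ⟨g * g', G.mul_mem hg hg', !b', R_mul h (R_neg h')⟩
            · exact ⟨g * g', G.mul_mem hg hg', b', R_mul h h'⟩ } }
  let rep : Fin n → Fin n := fun k => (Quotient.mk st k).out
  have hrep : ∀ k, ∃ g ∈ G, ∃ b, R p g (rep k, true) (k, b) := fun k =>
    Quotient.exact (Quotient.out_eq (Quotient.mk st k))
  have hrep2 : ∀ k k', (∃ g ∈ G, ∃ b, R p g (k, true) (k', b)) → rep k' = rep k := by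
    intro k k' h
    have : (Quotient.mk st k) = Quotient.mk st k' := Quotient.sound h
    change (Quotient.mk st k').out = (Quotient.mk st k).out
    rw [this]
  have hrep3 : ∀ k, rep (rep k) = rep k := fun k => (hrep2 _ _ (hrep k)).symm
  -- stabilisers
  let H : Fin n → Subgroup (Equiv.Perm Y) := fun k =>
    { carrier := {g | g ∈ G ∧ R p g (k, true) (k, true)}
      mul_mem' := fun {a b} ha hb => ⟨G.mul_mem ha.1 hb.1, R_mul ha.2 hb.2⟩
      one_mem' := ⟨G.one_mem, R_one _⟩
      inv_mem' := fun {a} ha => ⟨G.inv_mem ha.1, R_inv ha.2⟩ }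
  have hHG : ∀ k, H k ≤ G := fun k g hg => hg.1
  -- cyclic vectors
  choose u hu hufix hucyc using fun (k : Fin n) (i : ι) => cyc (hHG k) (hE i)
  let S : Finset (Fin n × Bool) := univ.filter fun s => ∃ g ∈ G, R p g (rep s.1, true) s
  have hSg : ∀ s : S, ∃ g ∈ G, R p g (rep s.1.1, true) s.1 := fun s => (mem_filter.1 s.2).2
  choose gs hgs hgs2 using hSg
  let v : S × ι → (Y → ℝ) := fun q => fun x => u (rep q.1.1.1) q.2 (gs q.1 x)
  let W : Submodule ℝ (Y → ℝ) := Submodule.span ℝ (Set.range v)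
  have hW1 : ∀ k i, M G (u (rep k) i) ≤ W := by
    intro k i
    refine Submodule.span_le.2 ?_
    rintro _ ⟨g, hg, rfl⟩
    obtain ⟨k', b, h⟩ := hR g hg (rep k)
    have e1 : rep k' = rep k := by rw [hrep2 _ _ ⟨g, hg, b, h⟩, hrep3]
    have hS : (k', b) ∈ S := mem_filter.2 ⟨mem_univ _, g, hg, by
      change R p g (rep k', true) (k', b)
      rwa [e1]⟩
    have h1 : (fun x => u (rep k) i (g x)) = v (⟨(k', b), hS⟩, i) := by
      funext x
      change u (rep k) i (g x) = u (rep k') i (gs ⟨(k', b), hS⟩ x)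
      rw [e1]
      have h2 := hgs2 ⟨(k', b), hS⟩
      change R p (gs ⟨(k', b), hS⟩) (rep k', true) (k', b) at h2
      rw [e1] at h2
      have h3 : g * (gs ⟨(k', b), hS⟩)⁻¹ ∈ H (rep k) :=
        ⟨G.mul_mem hg (G.inv_mem (hgs _)), R_mul h (R_inv h2)⟩
      have h4 := hufix (rep k) i _ h3 (gs ⟨(k', b), hS⟩ x)
      rw [← h4, Equiv.Perm.mul_apply]
      congr 2
      simp
    rw [h1]
    exact Submodule.subset_span ⟨_, rfl⟩
  have hW2 : ∀ k, D p k ≤ W := by
    intro k f hf
    obtain ⟨g, hg, b, h⟩ := hrep k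
    have hf0 : (fun x => f (g⁻¹ x)) ∈ D p (rep k) := D_comp (s := (k, b)) (R_inv h) hf
    have hfix : Fix (H (rep k)) (fun x => f (g⁻¹ x)) := by
      intro h hh x
      exact hf0 _ _ (R_self hh.2 x)
    obtain ⟨a, ha, hafix, hsum⟩ := avg (hHG (rep k)) (fun i => (hE i).1) hsup hfix
    have h1 : f = ∑ i, fun x => a i (g x) := by
      funext x
      have := congrFun hsum (g x)
      rw [Finset.sum_apply] at this ⊢
      rw [← this]
      simp
    rw [h1]
    refine W.sum_mem fun i _ => hW1 k i ?_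
    exact inv_M G _ g hg _ (hucyc (rep k) i (a i) (ha i) (hafix i))
  have hWtop : W = ⊤ := by
    refine eq_top_iff.2 ?_
    rw [← hD]
    exact iSup_le hW2
  have hcard : Fintype.card Y ≤ Fintype.card (S × ι) := by
    have h1 : (Set.range v).finrank ℝ ≤ Fintype.card (S × ι) := finrank_range_le_card v
    have h2 : (Set.range v).finrank ℝ = Fintype.card Y := by
      unfold Set.finrank
      change Module.finrank ℝ W = _
      rw [hWtop, finrank_top, Module.finrank_fintype_fun_eq_card]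
    rwa [h2] at h1
  have hS : S.card ≤ n + (univ.filter fun k => Rev p G k).card := by
    have h1 : S.card = ∑ k : Fin n, (univ.filter fun b => (k, b) ∈ S).card := by
      rw [← card_sigma]
      refine card_bij' (fun s _ => ⟨s.1, s.2⟩) (fun s _ => (s.1, s.2)) ?_ ?_ ?_ ?_
      · intro s hs
        simpa using hs
      · intro s hs
        simpa using hs
      · intro s hs
        rfl
      · intro s hs
        rfl
    have h2 : ∀ k : Fin n, (univ.filter fun b => (k, b) ∈ S).card ≤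
        1 + if Rev p G k then 1 else 0 := by
      intro k
      by_cases hk : Rev p G k
      · rw [if_pos hk]
        exact (card_le_univ _).trans (by simp)
      · rw [if_neg hk, add_zero, card_le_one]
        have key : ¬ ((k, true) ∈ S ∧ (k, false) ∈ S) := by
          rintro ⟨h3, h4⟩
          obtain ⟨g, hg, h5⟩ := (mem_filter.1 h3).2
          obtain ⟨g', hg', h6⟩ := (mem_filter.1 h4).2
          exact hk (rev_of (G.mul_mem (G.inv_mem hg) hg') (R_mul (R_inv h5) h6))
        intro b hb b' hb'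
        rw [mem_filter] at hb hb'
        cases b <;> cases b'
        · rfl
        · exact (key ⟨hb'.2, hb.2⟩).elim
        · exact (key ⟨hb.2, hb'.2⟩).elim
        · rfl
    rw [h1]
    refine (sum_le_sum fun k _ => h2 k).trans ?_
    rw [sum_add_distrib, sum_const, card_univ, Fintype.card_fin, ← card_filter]
    simp
  rw [Fintype.card_prod, Fintype.card_coe, mul_comm] at hcard
  exact hcard.trans (Nat.mul_le_mul_left _ hS)

/-! ### Projections, commutative centralisers -/

/-- The kernel of the orthogonal projection to an invariant space. -/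
lemma proj (G : Subgroup (Equiv.Perm Y)) {A : Submodule ℝ (Y → ℝ)} (hA : Inv G A) :
    ∃ P : Y → Y → ℝ, (∀ y, (fun x => P x y) ∈ A) ∧ (∀ f ∈ A, ∀ x, f x = ∑ y, P x y * f y) ∧
      (∀ g ∈ G, ∀ x y, P (g x) (g y) = P x y) ∧
      (∀ y, (∀ f ∈ A, f y = 0) → ∀ x, P x y = 0) := by
  classical
  have huniq : ∀ a a' z z' : Y → ℝ, a ∈ A → a' ∈ A → (∀ k ∈ A, ∑ x, k x * z x = 0) →
      (∀ k ∈ A, ∑ x, k x * z' x = 0) → a + z = a' + z' → a = a' := by
    intro a a' z z' ha ha' hz hz' h
    have hd : a - a' ∈ A := A.sub_mem ha ha'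
    have h1 : a - a' = z' - z := by
      rw [sub_eq_sub_iff_add_eq_add, h, add_comm]
    have h0 : a - a' = 0 := by
      refine zero_of_sq ?_
      calc ∑ x, (a - a') x * (a - a') x = ∑ x, (a - a') x * (z' - z) x := by rw [← h1]
        _ = ∑ x, (a - a') x * z' x - ∑ x, (a - a') x * z x := by
            rw [← sum_sub_distrib]
            refine sum_congr rfl fun x _ => ?_
            rw [Pi.sub_apply z' z, mul_sub]
        _ = 0 := by rw [hz _ hd, hz' _ hd, sub_zero]
    exact sub_eq_zero.1 h0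
  choose a ha z hz he using fun y : Y => orth A (Pi.single y (1 : ℝ))
  have hin : ∀ f : Y → ℝ, (fun x => ∑ y, a y x * f y) ∈ A := by
    intro f
    have : (fun x => ∑ y, a y x * f y) = ∑ y, f y • a y := by
      funext x
      rw [Finset.sum_apply]
      exact sum_congr rfl fun y _ => by rw [Pi.smul_apply, smul_eq_mul, mul_comm]
    rw [this]
    exact A.sum_mem fun y _ => A.smul_mem _ (ha y)
  refine ⟨fun x y => a y x, ha, ?_, ?_, ?_⟩
  · intro f hf x
    refine congrFun (huniq f (fun x => ∑ y, a y x * f y) 0 (fun x => ∑ y, z y x * f y) hf (hin f)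
      (fun k _ => by simp) (fun k hk => ?_) ?_) x
    · calc ∑ x, k x * ∑ y, z y x * f y = ∑ y, f y * ∑ x, k x * z y x := by
            simp only [mul_sum]
            rw [sum_comm]
            exact sum_congr rfl fun y _ => sum_congr rfl fun x _ => by ring
        _ = 0 := sum_eq_zero fun y _ => by rw [hz y k hk, mul_zero]
    · funext x
      rw [add_zero, Pi.add_apply, ← sum_add_distrib]
      have h1 : ∀ y, a y x * f y + z y x * f y = (Pi.single y (1 : ℝ) : Y → ℝ) x * f y := by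
        intro y
        rw [he y, Pi.add_apply, add_mul]
      rw [sum_congr rfl fun y _ => h1 y, sum_eq_single x]
      · rw [Pi.single_eq_same, one_mul]
      · intro y _ hy
        rw [Pi.single_eq_of_ne hy.symm, zero_mul]
      · simp
  · intro g hg x y
    refine congrFun (huniq (fun x => a (g y) (g x)) (a y) (fun x => z (g y) (g x)) (z y)
      (hA g hg _ (ha _)) (ha y) (fun k hk => ?_) (hz y) ?_) x
    · rw [sum_perm k (z (g y)) g]
      exact hz (g y) _ (hA _ (G.inv_mem hg) k hk)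
    · rw [← he y]
      funext x
      have h1 := congrFun (he (g y)) (g x)
      rw [Pi.add_apply] at h1 ⊢
      rw [← h1]
      simp only [Pi.single_apply]
      simp [g.injective.eq_iff]
  · intro y hy x
    refine congrFun (huniq (a y) 0 (z y) (Pi.single y 1) (ha y) A.zero_mem (hz y) (fun k hk => ?_)
      ?_) x
    · rw [sum_eq_single y]
      · rw [hy k hk, zero_mul]
      · intro x _ hx
        rw [Pi.single_eq_of_ne hx, mul_zero]
      · simp
    · rw [zero_add, ← he y]

/-- The `G`-invariant kernels on `Y` which vanish at pairs of points in different orbits. -/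
def Ker (G : Subgroup (Equiv.Perm Y)) (K : Y → Y → ℝ) : Prop :=
  (∀ g ∈ G, ∀ x y, K (g x) (g y) = K x y) ∧ ∀ x y, K x y ≠ 0 → ∃ g ∈ G, g x = y

/-- functions which vanish outside of an orbit -/
def orbFun (G : Subgroup (Equiv.Perm Y)) (o : MulAction.orbitRel.Quotient G Y) :
    Submodule ℝ (Y → ℝ) where
  carrier := {f | ∀ x, Quotient.mk (MulAction.orbitRel G Y) x ≠ o → f x = 0}
  add_mem' := fun {a b} ha hb x h => by simp only [Pi.add_apply, ha x h, hb x h, add_zero]
  zero_mem' := fun x h => rfl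
  smul_mem' := fun c a ha x h => by simp only [Pi.smul_apply, ha x h, smul_zero]

omit [Fintype Y] in
lemma orb_eq_iff (G : Subgroup (Equiv.Perm Y)) (x y : Y) :
    Quotient.mk (MulAction.orbitRel G Y) x = Quotient.mk (MulAction.orbitRel G Y) y ↔
      ∃ g ∈ G, g x = y := by
  rw [Quotient.eq, MulAction.orbitRel_apply]
  constructor
  · rintro ⟨g, hg⟩
    refine ⟨(g : Equiv.Perm Y)⁻¹, G.inv_mem g.2, ?_⟩
    rw [← hg]
    change (g : Equiv.Perm Y)⁻¹ ((g : Equiv.Perm Y) y) = y
    simp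
  · rintro ⟨g, hg, rfl⟩
    refine ⟨⟨g⁻¹, G.inv_mem hg⟩, ?_⟩
    change g⁻¹ (g x) = x
    simp

omit [Fintype Y] in
lemma inv_orbFun (G : Subgroup (Equiv.Perm Y)) (o : MulAction.orbitRel.Quotient G Y) :
    Inv G (orbFun G o) := by
  intro g hg f hf x hx
  refine hf _ ?_
  have : Quotient.mk (MulAction.orbitRel G Y) x = Quotient.mk (MulAction.orbitRel G Y) (g x) :=
    (orb_eq_iff G _ _).2 ⟨g, hg, rfl⟩
  rwa [← this]

lemma sup_orbFun (G : Subgroup (Equiv.Perm Y)) : ⨆ o, orbFun G o = ⊤ := by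
  classical
  refine eq_top_iff.2 fun f _ => ?_
  have : Fintype (MulAction.orbitRel.Quotient G Y) := Fintype.ofFinite _
  have h1 : f = ∑ o : MulAction.orbitRel.Quotient G Y,
      fun x => if Quotient.mk (MulAction.orbitRel G Y) x = o then f x else 0 := by
    funext x
    rw [Finset.sum_apply, sum_ite_eq]
    simp
  rw [h1]
  refine Submodule.sum_mem _ fun o _ => ?_
  refine (le_iSup (fun o => orbFun G o) o) ?_
  intro x hx
  exact if_neg hx

lemma multFree_orbFun (G : Subgroup (Equiv.Perm Y))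
    (hG : ∀ K L : Y → Y → ℝ, Ker G K → Ker G L →
      ∀ x y, ∑ z, K x z * L z y = ∑ z, L x z * K z y)
    (o : MulAction.orbitRel.Quotient G Y) : MultFree G (orbFun G o) := by
  have key : ∀ A B : Submodule ℝ (Y → ℝ), A ≤ orbFun G o → B ≤ orbFun G o → Inv G A → Inv G B →
      ∀ P : Y → Y → ℝ, (∀ y, (fun x => P x y) ∈ A) → (∀ g ∈ G, ∀ x y, P (g x) (g y) = P x y) →
      (∀ y, (∀ f ∈ A, f y = 0) → ∀ x, P x y = 0) → ∀ b ∈ B,
      (fun x => ∑ y, P x y * b y) ∈ A ⊓ B := by
    intro A B hA hB iA iB P hP1 hP2 hP3 b hb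
    have hin : ∀ (A : Submodule ℝ (Y → ℝ)) (P : Y → Y → ℝ), (∀ y, (fun x => P x y) ∈ A) →
        ∀ f : Y → ℝ, (fun x => ∑ y, P x y * f y) ∈ A := by
      intro A P hP f
      have : (fun x => ∑ y, P x y * f y) = ∑ y, f y • fun x => P x y := by
        funext x
        rw [Finset.sum_apply]
        exact sum_congr rfl fun y _ => by rw [Pi.smul_apply, smul_eq_mul, mul_comm]
      rw [this]
      exact A.sum_mem fun y _ => A.smul_mem _ (hP y)
    have hKer : ∀ (A : Submodule ℝ (Y → ℝ)) (P : Y → Y → ℝ), A ≤ orbFun G o →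
        (∀ y, (fun x => P x y) ∈ A) → (∀ g ∈ G, ∀ x y, P (g x) (g y) = P x y) →
        (∀ y, (∀ f ∈ A, f y = 0) → ∀ x, P x y = 0) → Ker G P := by
      intro A P hA hP1 hP2 hP3
      refine ⟨hP2, fun x y hxy => ?_⟩
      rw [← orb_eq_iff]
      have h1 : Quotient.mk (MulAction.orbitRel G Y) x = o := by
        by_contra h
        exact hxy (hA (hP1 y) x h)
      have h2 : Quotient.mk (MulAction.orbitRel G Y) y = o := by
        by_contra h
        exact hxy (hP3 y (fun f hf => hA hf y h) x)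
      rw [h1, h2]
    obtain ⟨Q, hQ1, hQ2, hQ3, hQ4⟩ := proj G iB
    refine ⟨hin A P hP1 b, ?_⟩
    have h1 : (fun x => ∑ y, P x y * b y) = fun x => ∑ y, Q x y * ∑ z, P y z * b z := by
      funext x
      calc ∑ y, P x y * b y = ∑ y, P x y * ∑ z, Q y z * b z := by
            exact sum_congr rfl fun y _ => by rw [← hQ2 b hb y]
        _ = ∑ z, (∑ y, P x y * Q y z) * b z := by
            simp only [mul_sum, sum_mul]
            rw [sum_comm]
            exact sum_congr rfl fun z _ => sum_congr rfl fun y _ => by ring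
        _ = ∑ z, (∑ y, Q x y * P y z) * b z := by
            refine sum_congr rfl fun z _ => ?_
            rw [hG P Q (hKer A P hA hP1 hP2 hP3) (hKer B Q hB hQ1 hQ3 hQ4)]
        _ = _ := by
            simp only [mul_sum, sum_mul]
            rw [sum_comm]
            exact sum_congr rfl fun y _ => sum_congr rfl fun z _ => by ring
    rw [h1]
    exact hin B Q hQ1 _
  refine ⟨inv_orbFun G o, fun A B C hA hB hC iA iB iC f hf => ?_⟩
  obtain ⟨P, hP1, hP2, hP3, hP4⟩ := proj G iA
  obtain ⟨b, hb, c, hc, hbc⟩ := Submodule.mem_sup.1 hf.2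
  have h1 : f = (fun x => ∑ y, P x y * b y) + fun x => ∑ y, P x y * c y := by
    funext x
    rw [Pi.add_apply, ← sum_add_distrib, hP2 f hf.1 x, ← hbc]
    exact sum_congr rfl fun y _ => by rw [Pi.add_apply, mul_add]
  rw [h1]
  exact Submodule.add_mem_sup (key A B hA hB iA iB P hP1 hP3 hP4 b hb)
    (key A C hA hC iA iC P hP1 hP3 hP4 c hc)

/-- The centralisers of the orbits of a commutative group are commutative. -/
lemma comm_ker (G : Subgroup (Equiv.Perm Y)) (hG : ∀ g ∈ G, ∀ h ∈ G, g * h = h * g)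
    (K L : Y → Y → ℝ) (hK : Ker G K) (hL : Ker G L) (x y : Y) :
    ∑ z, K x z * L z y = ∑ z, L x z * K z y := by
  classical
  by_cases hxy : ∃ g ∈ G, g x = y
  · obtain ⟨g, hg, rfl⟩ := hxy
    have hinv : ∀ a ∈ G, ∀ b ∈ G, a x = b x → a⁻¹ x = b⁻¹ x := by
      intro a ha b hb hab
      have h1 : a⁻¹ * b⁻¹ = b⁻¹ * a⁻¹ := hG _ (G.inv_mem ha) _ (G.inv_mem hb)
      calc a⁻¹ x = (a⁻¹ * b⁻¹) (b x) := by simp
        _ = (b⁻¹ * a⁻¹) (a x) := by rw [h1, hab]
        _ = b⁻¹ x := by simp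
    let ψ : Y → Y := fun z =>
      if h : ∃ h ∈ G, h x = z then g ((h.choose)⁻¹ x) else z
    have hψ : ∀ h ∈ G, ψ (h x) = g (h⁻¹ x) := by
      intro h hh
      have hex : ∃ h' ∈ G, h' x = h x := ⟨h, hh, rfl⟩
      have h1 := hex.choose_spec
      change (if h' : ∃ h' ∈ G, h' x = h x then g ((h'.choose)⁻¹ x) else h x) = _
      rw [dif_pos hex, hinv _ h1.1 h hh h1.2]
    have hψ2 : ∀ z, (¬ ∃ h ∈ G, h x = z) → ψ z = z := fun z hz => dif_neg hz
    have hinvol : Function.Involutive ψ := by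
      intro z
      by_cases hz : ∃ h ∈ G, h x = z
      · obtain ⟨h, hh, rfl⟩ := hz
        rw [hψ h hh]
        have h1 := hψ (g * h⁻¹) (G.mul_mem hg (G.inv_mem hh))
        rw [Equiv.Perm.mul_apply] at h1
        rw [h1]
        have h2 : g * (g * h⁻¹)⁻¹ = h := by
          rw [mul_inv_rev, inv_inv, hG h hh _ (G.inv_mem hg), mul_inv_cancel_left]
        calc g ((g * h⁻¹)⁻¹ x) = (g * (g * h⁻¹)⁻¹) x := rfl
          _ = h x := by rw [h2]
      · rw [hψ2 z hz, hψ2 z hz]
    refine Fintype.sum_equiv (hinvol.toPerm ψ) _ _ fun z => ?_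
    change K x z * L z (g x) = L x (ψ z) * K (ψ z) (g x)
    by_cases hz : ∃ h ∈ G, h x = z
    · obtain ⟨h, hh, rfl⟩ := hz
      rw [hψ h hh]
      have e1 : L (h x) (g x) = L x (g (h⁻¹ x)) := by
        rw [← hL.1 h⁻¹ (G.inv_mem hh) (h x) (g x)]
        have : h⁻¹ * g = g * h⁻¹ := hG _ (G.inv_mem hh) g hg
        have h3 : h⁻¹ (g x) = g (h⁻¹ x) := by
          rw [← Equiv.Perm.mul_apply, this, Equiv.Perm.mul_apply]
        rw [h3]
        simp
      have e2 : K (g (h⁻¹ x)) (g x) = K x (h x) := by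
        rw [hK.1 g hg, ← hK.1 h hh (h⁻¹ x) x]
        simp
      rw [e1, e2, mul_comm]
    · have e1 : K x z = 0 := by
        by_contra h
        exact hz (hK.2 x z h)
      have e2 : L x z = 0 := by
        by_contra h
        exact hz (hL.2 x z h)
      rw [hψ2 z hz, e1, e2, zero_mul, zero_mul]
  · have h1 : ∀ K L : Y → Y → ℝ, Ker G K → Ker G L → ∀ z, K x z * L z y = 0 := by
      intro K L hK hL z
      by_contra h
      obtain ⟨g, hg, h2⟩ := hK.2 x z (left_ne_zero_of_mul h)
      obtain ⟨g', hg', h3⟩ := hL.2 z y (right_ne_zero_of_mul h)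
      exact hxy ⟨g' * g, G.mul_mem hg' hg, by rw [Equiv.Perm.mul_apply, h2, h3]⟩
    rw [sum_eq_zero fun z _ => h1 K L hK hL z, sum_eq_zero fun z _ => h1 L K hL hK z]

end main

/-! ### Isometries -/

section iso

/-- the space `ℓ₁ⁿ` -/
abbrev L1 (n : ℕ) : Type := PiLp 1 fun _ : Fin n => ℝ

/-- the basis vectors -/
def bv (j : Fin n) : L1 n := WithLp.toLp 1 (Pi.single j 1)

lemma bv_apply (j k : Fin n) : bv j k = if k = j then (1 : ℝ) else 0 := by
  simp [bv]

lemma sum_bv (x : L1 n) : x = ∑ j, x j • bv j := by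
  ext k
  simp only [WithLp.ofLp_sum, Finset.sum_apply]
  rw [sum_eq_single k]
  · change x k = x k * bv k k
    rw [bv_apply, if_pos rfl, mul_one]
  · intro j _ hj
    change x j * bv j k = 0
    rw [bv_apply, if_neg hj.symm, mul_zero]
  · simp

lemma lin_coord (L : L1 n ≃ₗᵢ[ℝ] L1 n) (k : Fin n) :
    ∃ j, (L (bv j) k = 1 ∨ L (bv j) k = -1) ∧ ∀ x, L x k = x j * L (bv j) k := by
  have h1 : ∀ i, ∑ l, |L (bv i) l| = 1 := by
    intro i
    have h := L.norm_map (bv i)
    rw [PiLp.norm_eq_of_L1, PiLp.norm_eq_of_L1] at h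
    simp only [Real.norm_eq_abs] at h
    rw [h]
    simp [bv_apply, apply_ite abs]
  have h2 : ∀ i j, i ≠ j → ∑ l, |L (bv i) l + L (bv j) l| = 2 := by
    intro i j hij
    have h := L.norm_map (bv i + bv j)
    rw [PiLp.norm_eq_of_L1, PiLp.norm_eq_of_L1, map_add] at h
    simp only [Real.norm_eq_abs, PiLp.add_apply] at h
    rw [h]
    have h3 : ∀ l, |bv i l + bv j l| = (if l = i then (1 : ℝ) else 0) + if l = j then 1 else 0 := by
      intro l
      rw [bv_apply, bv_apply]
      by_cases hl : l = i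
      · have hl' : l ≠ j := fun h => hij (hl.symm.trans h)
        rw [if_pos hl, if_neg hl']
        norm_num
      · rw [if_neg hl]
        by_cases hl' : l = j
        · rw [if_pos hl']
          norm_num
        · rw [if_neg hl']
          norm_num
    rw [sum_congr rfl fun l _ => h3 l, sum_add_distrib, sum_ite_eq', sum_ite_eq']
    norm_num
  have h2' : ∀ i j, i ≠ j → ∑ l, |L (bv i) l - L (bv j) l| = 2 := by
    intro i j hij
    have h := L.norm_map (bv i - bv j)
    rw [PiLp.norm_eq_of_L1, PiLp.norm_eq_of_L1, map_sub] at h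
    simp only [Real.norm_eq_abs, PiLp.sub_apply] at h
    rw [h]
    have h3 : ∀ l, |bv i l - bv j l| = (if l = i then (1 : ℝ) else 0) + if l = j then 1 else 0 := by
      intro l
      rw [bv_apply, bv_apply]
      by_cases hl : l = i
      · have hl' : l ≠ j := fun h => hij (hl.symm.trans h)
        rw [if_pos hl, if_neg hl']
        norm_num
      · rw [if_neg hl]
        by_cases hl' : l = j
        · rw [if_pos hl']
          norm_num
        · rw [if_neg hl']
          norm_num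
    rw [sum_congr rfl fun l _ => h3 l, sum_add_distrib, sum_ite_eq', sum_ite_eq']
    norm_num
  have hdis : ∀ i j, i ≠ j → ∀ l, L (bv i) l = 0 ∨ L (bv j) l = 0 := by
    intro i j hij l
    have h3 : ∑ l, (2 * |L (bv i) l| + 2 * |L (bv j) l| - |L (bv i) l + L (bv j) l| -
        |L (bv i) l - L (bv j) l|) = 0 := by
      rw [sum_sub_distrib, sum_sub_distrib, sum_add_distrib, ← mul_sum, ← mul_sum, h1, h1,
        h2 i j hij, h2' i j hij]
      norm_num
    have h4 : ∀ a b : ℝ, 0 ≤ 2 * |a| + 2 * |b| - |a + b| - |a - b| := by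
      intro a b
      have e1 := abs_add_le a b
      have e2 := abs_sub a b
      linarith
    have h5 := (sum_eq_zero_iff_of_nonneg (fun l _ => h4 _ _)).1 h3 l (mem_univ l)
    generalize L (bv i) l = a at h5
    generalize L (bv j) l = b at h5
    rcases abs_cases a with ⟨e1, e1'⟩ | ⟨e1, e1'⟩ <;> rcases abs_cases b with ⟨e2, e2'⟩ | ⟨e2, e2'⟩ <;>
      rcases abs_cases (a + b) with ⟨e3, e3'⟩ | ⟨e3, e3'⟩ <;>
      rcases abs_cases (a - b) with ⟨e4, e4'⟩ | ⟨e4, e4'⟩ <;>
      rw [e1, e2, e3, e4] at h5 <;>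
      first
        | (left; linarith)
        | (right; linarith)
  have hne : ∀ j, ∃ l, L (bv j) l ≠ 0 := by
    intro j
    by_contra h
    push Not at h
    have := h1 j
    simp [h] at this
  choose π hπ using hne
  have hinj : Function.Injective π := by
    intro i j hij
    by_contra h
    rcases hdis i j h (π i) with h3 | h3
    · exact hπ i h3
    · rw [hij] at h3
      exact hπ j h3
  have hsur : Function.Surjective π := Finite.injective_iff_surjective.1 hinj
  obtain ⟨j, rfl⟩ := hsur k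
  have hz : ∀ i, i ≠ j → L (bv i) (π j) = 0 := fun i hij =>
    (hdis i j hij (π j)).resolve_right (hπ j)
  have hz' : ∀ l, l ≠ π j → L (bv j) l = 0 := by
    intro l hl
    obtain ⟨i, rfl⟩ := hsur l
    have hij : i ≠ j := fun h => hl (by rw [h])
    exact (hdis i j hij (π i)).resolve_left (hπ i)
  refine ⟨j, ?_, ?_⟩
  · have h3 := h1 j
    rw [sum_eq_single (π j) (fun l _ hl => by rw [hz' l hl, abs_zero]) (by simp)] at h3
    exact eq_or_eq_neg_of_abs_eq h3
  · intro x
    conv_lhs => rw [sum_bv x, map_sum]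
    simp only [WithLp.ofLp_sum, Finset.sum_apply, map_smul]
    rw [sum_eq_single j]
    · rfl
    · intro i _ hij
      change x i * L (bv i) (π j) = 0
      rw [hz i hij, mul_zero]
    · simp

lemma iso_coord (φ : L1 n ≃ᵢ L1 n) (k : Fin n) :
    ∃ (k' : Fin n) (b : Bool) (a : ℝ), ∀ x, φ x k = (if b then x k' else - x k') + a := by
  obtain ⟨j, hj, h⟩ := lin_coord φ.toRealLinearIsometryEquiv k
  have h1 : ∀ x, φ x k = φ.toRealLinearIsometryEquiv x k + φ 0 k := by
    intro x
    rw [IsometryEquiv.toRealLinearIsometryEquiv_apply]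
    simp
  rcases hj with hj | hj
  · refine ⟨j, true, φ 0 k, fun x => ?_⟩
    rw [h1, h, hj]
    simp
  · refine ⟨j, false, φ 0 k, fun x => ?_⟩
    rw [h1, h, hj]
    simp

end iso

lemma span_D (hn : 0 < n) (Y : Finset (L1 n)) {t : ℝ} (ht : 0 < t)
    (hY : ∀ x ∈ Y, ∀ y ∈ Y, x ≠ y → dist x y = t) :
    ⨆ k, D (fun (k : Fin n) (x : Y) => (x : L1 n) k) k = ⊤ := by
  classical
  refine eq_top_iff.2 fun f _ => ?_
  have h1 : f = ∑ k : Fin n, fun x : Y => ∑ y : Y, f y * (1 / n - 1 / t * |(x : L1 n) k - (y : L1 n) k|) := by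
    funext x
    rw [Finset.sum_apply, sum_comm]
    have h2 : ∀ y : Y, ∑ k, f y * (1 / n - 1 / t * |(x : L1 n) k - (y : L1 n) k|) =
        if y = x then f x else 0 := by
      intro y
      rw [← mul_sum, sum_sub_distrib, sum_const, card_univ, Fintype.card_fin, nsmul_eq_mul,
        ← mul_sum]
      have h3 : ∑ k, |(x : L1 n) k - (y : L1 n) k| = dist (x : L1 n) y := by
        rw [PiLp.dist_eq_of_L1]
        rfl
      have h4 : (n : ℝ) * (1 / n) = 1 := by
        field_simp
      rw [h3, h4]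
      by_cases hxy : y = x
      · rw [if_pos hxy, hxy, dist_self]
        ring
      · rw [if_neg hxy, hY _ x.2 _ y.2 fun h => hxy (Subtype.ext h.symm)]
        field_simp
        ring
    rw [sum_congr rfl fun y _ => h2 y, sum_ite_eq']
    simp
  rw [h1]
  refine Submodule.sum_mem _ fun k _ => ?_
  refine (le_iSup (fun k => D (fun (k : Fin n) (x : Y) => (x : L1 n) k) k) k) ?_
  intro x y hxy
  refine sum_congr rfl fun z _ => ?_
  change (x : L1 n) k = (y : L1 n) k at hxy
  rw [hxy]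

end

/-- Equilateral sets in `ℓ₁ⁿ` with symmetry. Let `Y` be an equilateral set in `ℓ₁ⁿ` and `G` a group
of permutations of `Y` which are induced by isometries of `ℓ₁ⁿ`. Let `r` be the number of
coordinates `k` such that some `g ∈ G` acts on `Y` by `x_k ↦ a - x_k` on this coordinate
(so that `n + r ≤ 2 n`). -/
theorem result (n : ℕ) (hn : 0 < n) (Y : Finset (PiLp 1 fun _ : Fin n => ℝ)) (t : ℝ) (ht : 0 < t)
    (hY : ∀ x ∈ Y, ∀ y ∈ Y, x ≠ y → dist x y = t) (G : Subgroup (Equiv.Perm Y))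
    (hG : ∀ g ∈ G, ∃ φ : (PiLp 1 fun _ : Fin n => ℝ) ≃ᵢ (PiLp 1 fun _ : Fin n => ℝ),
      ∀ x : Y, φ x = g x)
    (r : ℕ) (hr : r = Nat.card {k : Fin n // ∃ g ∈ G, ∃ a : ℝ, ∀ x : Y,
      (g x : PiLp 1 fun _ : Fin n => ℝ) k = a - (x : PiLp 1 fun _ : Fin n => ℝ) k}) :
    -- the space of functions on `Y` is a sum of `m` multiplicity free spaces
    (∀ (m : ℕ) (E : Fin m → Submodule ℝ (Y → ℝ)), (∀ i, MultFree G (E i)) → ⨆ i, E i = ⊤ →
      Y.card ≤ m * (n + r)) ∧
    -- the centraliser algebra of every orbit is commutative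
    ((∀ K L : Y → Y → ℝ, Ker G K → Ker G L → ∀ x y, ∑ z, K x z * L z y = ∑ z, L x z * K z y) →
      Y.card ≤ Nat.card (MulAction.orbitRel.Quotient G Y) * (n + r)) ∧
    -- the group `G` is commutative
    ((∀ g ∈ G, ∀ h ∈ G, g * h = h * g) →
      Y.card ≤ Nat.card (MulAction.orbitRel.Quotient G Y) * (n + r)) := by
  classical
  set p : Fin n → Y → ℝ := fun k x => (x : L1 n) k with hp
  have hR : ∀ g ∈ G, ∀ k, ∃ k' b, R p g (k, true) (k', b) := by
    intro g hg k
    obtain ⟨φ, hφ⟩ := hG g hg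
    obtain ⟨k', b, a, h⟩ := iso_coord φ k
    refine ⟨k', b, a, fun x => ?_⟩
    have h1 := h x
    rw [hφ x] at h1
    simp only [cS, if_true, hp]
    exact h1
  have hD := span_D hn Y ht hY
  have hr' : r = (univ.filter fun k => Rev p G k).card := by
    rw [hr, Nat.card_eq_fintype_card, Fintype.card_subtype]
    congr 1
    ext k
    simp only [mem_filter, mem_univ, true_and]
    rfl
  have h1 : ∀ (ι : Type) [Fintype ι] (E : ι → Submodule ℝ (Y → ℝ)), (∀ i, MultFree G (E i)) →
      ⨆ i, E i = ⊤ → Y.card ≤ Fintype.card ι * (n + r) := by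
    intro ι _ E hE hsup
    have := main_abs p G hR hD E hE hsup
    rw [Fintype.card_coe, ← hr'] at this
    convert this using 1
  have h2 : (∀ K L : Y → Y → ℝ, Ker G K → Ker G L →
      ∀ x y, ∑ z, K x z * L z y = ∑ z, L x z * K z y) →
      Y.card ≤ Nat.card (MulAction.orbitRel.Quotient G Y) * (n + r) := by
    intro h
    have : Fintype (MulAction.orbitRel.Quotient G Y) := Fintype.ofFinite _
    rw [Nat.card_eq_fintype_card]
    exact h1 _ (orbFun G) (multFree_orbFun G h) (sup_orbFun G)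
  refine ⟨fun m E hE hsup => ?_, h2, fun h => h2 (comm_ker G h)⟩
  have := h1 (Fin m) E hE hsup
  rwa [Fintype.card_fin] at this

end Pool.Agent.Results.MP_ee26ba_co.SymmetricSets
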